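import Pool.Agent.WD.ToricConn

set_option autoImplicit false

namespace Pool.Agent.WD

open Finset

variable {α : Type*} [DecidableEq α]

private theorem sameContent_compl (E : Finset α) {m : ℕ} {B D : Fin m → Finset α}
    (h : SameContent B D) : SameContent (fun k => E \ B k) (fun k => E \ D k) := by
  have key : ∀ (z : α) (C : Fin m → Finset α), z ∈ E →
      (univ.filter (fun k => z ∈ E \ C k)).card = m - (univ.filter (fun k => z ∈ C k)).card := by
    intro z C hz
    have h1 : (univ.filter (fun k => z ∈ E \ C k)) = (univ.filter (fun k => z ∈ C k))ᶜ := by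
      ext k
      simp [hz]
    rw [h1, card_compl, Fintype.card_fin]
  intro z
  by_cases hz : z ∈ E
  · change (univ.filter (fun k => z ∈ E \ B k)).card = (univ.filter (fun k => z ∈ E \ D k)).card
    rw [key z B hz, key z D hz, h z]
  · change (univ.filter (fun k => z ∈ E \ B k)).card = (univ.filter (fun k => z ∈ E \ D k)).card
    have h0 : ∀ C : Fin m → Finset α, (univ.filter (fun k => z ∈ E \ C k)).card = 0 := by
      intro C
      rw [card_eq_zero, filter_eq_empty_iff]
      intro k _ hk
      exact hz (mem_sdiff.mp hk).1
    rw [h0, h0]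

/-- Connectivity passes from the dual matroid to the matroid (complements of bases). -/
theorem shareConn_of_dual (M : Matroid α) [M.Finite] {d : ℕ}
    (h : ShareConn (fun B : Finset α => M✶.IsBase (B : Set α)) d) :
    ShareConn (fun B : Finset α => M.IsBase (B : Set α)) d := by
  classical
  intro m hm B D hB hD hBD
  let E : Finset α := M.ground_finite.toFinset
  have hE : (E : Set α) = M.E := M.ground_finite.coe_toFinset
  have hsub : ∀ S : Finset α, M.IsBase (S : Set α) → S ⊆ E := by
    intro S hS
    rw [← Finset.coe_subset, hE]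
    exact hS.subset_ground
  have hsub' : ∀ S : Finset α, M✶.IsBase (S : Set α) → S ⊆ E := by
    intro S hS
    rw [← Finset.coe_subset, hE]
    exact hS.subset_ground
  have hdual : ∀ S : Finset α, M.IsBase (S : Set α) → M✶.IsBase ((E \ S : Finset α) : Set α) := by
    intro S hS
    rw [Finset.coe_sdiff, hE]
    exact hS.compl_isBase_dual
  have hdual' : ∀ S : Finset α, M✶.IsBase (S : Set α) → M.IsBase ((E \ S : Finset α) : Set α) := by
    intro S hS
    rw [Finset.coe_sdiff, hE]
    exact hS.compl_isBase_of_dual
  have hcc : ∀ C : Fin m → Finset α, (∀ k, M.IsBase (C k : Set α)) →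
      (fun k => E \ (E \ C k)) = C := by
    intro C hC
    funext k
    rw [sdiff_sdiff_right_self]
    exact inter_eq_right.mpr (hsub _ (hC k))
  have h1 := h m hm (fun k => E \ B k) (fun k => E \ D k) (fun k => hdual _ (hB k))
    (fun k => hdual _ (hD k)) (sameContent_compl E hBD)
  have h2 : Relation.ReflTransGen (ShareStep (fun B : Finset α => M.IsBase (B : Set α)))
      ((fun (C : Fin m → Finset α) k => E \ C k) (fun k => E \ B k))
      ((fun (C : Fin m → Finset α) k => E \ C k) (fun k => E \ D k)) := by
    refine Relation.ReflTransGen.lift (fun (C : Fin m → Finset α) k => E \ C k) ?_ _ _ h1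
    rintro P Q ⟨hP, hQ, hPQ, i, j, hij⟩
    refine ⟨fun k => hdual' _ (hP k), fun k => hdual' _ (hQ k), sameContent_compl E hPQ, i, j, ?_⟩
    change E \ P i = E \ Q j
    rw [hij]
  have h3 := hcc B hB
  have h4 := hcc D hD
  change Relation.ReflTransGen _ (fun k => E \ (E \ B k)) (fun k => E \ (E \ D k)) at h2
  rw [h3, h4] at h2
  exact h2

end Pool.Agent.WD
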