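import Pool.Agent.WD.ToricConn
import Pool.Agent.H94.Toric

set_option autoImplicit false

namespace Pool.Agent.WD

open Finset MvPolynomial Pool.Agent.H94

variable {α : Type*} [DecidableEq α] {K : Type*} [Field K]

/-- The monomials of tuples with the same content differ by an element of the toric ideal which is
homogeneous of degree the length of the tuples. -/
theorem tuple_sub_mem (M : Matroid α) {m : ℕ} (B D : Fin m → Bases M)
    (h : SameContent (fun k => (B k).1) (fun k => (D k).1)) :
    (∏ k, (X (B k) : MvPolynomial (Bases M) K)) - ∏ k, X (D k) ∈ toricIdeal K M ∧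
      ((∏ k, (X (B k) : MvPolynomial (Bases M) K)) - ∏ k, X (D k)).IsHomogeneous m := by
  have hhom : ∀ C : Fin m → Bases M,
      (∏ k, (X (C k) : MvPolynomial (Bases M) K)).IsHomogeneous m := by
    intro C
    have := IsHomogeneous.prod (univ : Finset (Fin m))
      (fun k => (X (C k) : MvPolynomial (Bases M) K)) (fun _ => 1) (fun k _ => isHomogeneous_X _ _)
    simpa using this
  refine ⟨?_, (hhom B).sub (hhom D)⟩
  have hexp : expo M (∑ k, Finsupp.single (B k) 1) = expo M (∑ k, Finsupp.single (D k) 1) := by
    rw [expo_tuple, expo_tuple]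
    ext z
    rw [tuple_apply, tuple_apply]
    exact h z
  have hB : (∏ k, (X (B k) : MvPolynomial (Bases M) K)) =
      monomial (∑ k, Finsupp.single (B k) 1) 1 := by
    rw [monomial_sum_one]; rfl
  have hD : (∏ k, (X (D k) : MvPolynomial (Bases M) K)) =
      monomial (∑ k, Finsupp.single (D k) 1) 1 := by
    rw [monomial_sum_one]; rfl
  change baseHom K M _ = 0
  rw [map_sub, hB, hD, baseHom_monomial, baseHom_monomial, hexp, sub_self]

/-- The generating set of the homogeneous elements of degree at most `d`. -/
private def gens (K : Type*) [Field K] (M : Matroid α) (d : ℕ) :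
    Set (MvPolynomial (Bases M) K) :=
  {f | f ∈ toricIdeal K M ∧ ∃ n ≤ d, f.IsHomogeneous n}

private theorem count_succAbove {m : ℕ} (B : Fin (m + 1) → Finset α) (i : Fin (m + 1)) (z : α) :
    (univ.filter (fun k => z ∈ B k)).card =
      (if z ∈ B i then 1 else 0) + (univ.filter (fun k : Fin m => z ∈ B (i.succAbove k))).card := by
  rw [card_filter, card_filter, Fin.sum_univ_succAbove _ i]

private theorem step_mem (M : Matroid α) {d m : ℕ}
    (ih : ∀ B D : Fin m → Bases M, SameContent (fun k => (B k).1) (fun k => (D k).1) →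
      (∏ k, (X (B k) : MvPolynomial (Bases M) K)) - ∏ k, X (D k) ∈ Ideal.span (gens K M d))
    (B D : Fin (m + 1) → Bases M) (h : SameContent (fun k => (B k).1) (fun k => (D k).1))
    {i j : Fin (m + 1)} (hij : B i = D j) :
    (∏ k, (X (B k) : MvPolynomial (Bases M) K)) - ∏ k, X (D k) ∈ Ideal.span (gens K M d) := by
  rw [Fin.prod_univ_succAbove _ i, Fin.prod_univ_succAbove (fun k => X (D k)) j, hij, ← mul_sub]
  refine Ideal.mul_mem_left _ _ (ih _ _ ?_)
  intro z
  have h1 := h z
  rw [count_succAbove (fun k => (B k).1) i, count_succAbove (fun k => (D k).1) j] at h1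
  simp only [hij] at h1
  exact Nat.add_left_cancel h1

private theorem chain_mem (M : Matroid α) {d m : ℕ}
    (ih : ∀ B D : Fin m → Bases M, SameContent (fun k => (B k).1) (fun k => (D k).1) →
      (∏ k, (X (B k) : MvPolynomial (Bases M) K)) - ∏ k, X (D k) ∈ Ideal.span (gens K M d))
    {B D : Fin (m + 1) → Finset α}
    (hs : Relation.ReflTransGen (ShareStep (fun S : Finset α => M.IsBase (S : Set α))) B D)
    (hB : ∀ k, M.IsBase (B k : Set α)) : ∀ hD : ∀ k, M.IsBase (D k : Set α),
    (∏ k, (X (⟨B k, hB k⟩ : Bases M) : MvPolynomial (Bases M) K)) -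
      ∏ k, X (⟨D k, hD k⟩ : Bases M) ∈ Ideal.span (gens K M d) := by
  induction hs with
  | refl => intro hD; rw [sub_self]; exact zero_mem _
  | tail h1 h2 ih2 =>
    intro hD
    obtain ⟨hP, hQ, hPQ, i, j, hij⟩ := h2
    have e1 := ih2 hP
    have e2 := step_mem (K := K) M ih (fun k => ⟨_, hP k⟩) (fun k => ⟨_, hD k⟩) hPQ
      (i := i) (j := j) (Subtype.ext hij)
    have := add_mem e1 e2
    rw [sub_add_sub_cancel] at this
    exact this

private theorem all_mem (M : Matroid α) {d : ℕ}
    (h : ShareConn (fun B : Finset α => M.IsBase (B : Set α)) d) (m : ℕ) :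
    ∀ B D : Fin m → Bases M, SameContent (fun k => (B k).1) (fun k => (D k).1) →
      (∏ k, (X (B k) : MvPolynomial (Bases M) K)) - ∏ k, X (D k) ∈ Ideal.span (gens K M d) := by
  induction m with
  | zero =>
    intro B D hBD
    have := tuple_sub_mem (K := K) M B D hBD
    exact Ideal.subset_span ⟨this.1, 0, Nat.zero_le _, this.2⟩
  | succ m ih =>
    intro B D hBD
    by_cases hm : m + 1 ≤ d
    · have := tuple_sub_mem (K := K) M B D hBD
      exact Ideal.subset_span ⟨this.1, m + 1, hm, this.2⟩
    · rw [not_le] at hm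
      have h1 := h (m + 1) hm (fun k => (B k).1) (fun k => (D k).1) (fun k => (B k).2)
        (fun k => (D k).2) hBD
      exact chain_mem (K := K) M ih h1 (fun k => (B k).2) (fun k => (D k).2)

/-- If tuples of more than `d` bases are connected, then the toric ideal is generated by its
homogeneous elements of degree at most `d`. -/
theorem toric_of_shareConn (M : Matroid α) [M.RankPos] [M.RankFinite] {d : ℕ}
    (h : ShareConn (fun B : Finset α => M.IsBase (B : Set α)) d) :
    toricIdeal K M =
      Ideal.span {f | f ∈ toricIdeal K M ∧ ∃ n ≤ d, f.IsHomogeneous n} := by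
  refine le_antisymm (ker_le M _ ?_) ?_
  · intro u v huv
    obtain ⟨m, B, rfl⟩ := exists_tuple u
    obtain ⟨m', D, rfl⟩ := exists_tuple v
    rw [expo_tuple, expo_tuple] at huv
    obtain ⟨B0, hB0⟩ := M.exists_isBase
    have hcard : ∀ B : Bases M, B.1.card = B0.ncard := by
      intro B
      rw [← B.2.ncard_eq_ncard_of_isBase hB0, Set.ncard_coe_finset]
    have hpos : 0 < B0.ncard := by
      rw [Set.ncard_pos hB0.finite]
      exact hB0.nonempty
    have hm : m * B0.ncard = m' * B0.ncard := by
      rw [← tuple_degree (fun k => (B k).1) (fun k => hcard (B k)),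
        ← tuple_degree (fun k => (D k).1) (fun k => hcard (D k)), huv]
    have hmm : m = m' := Nat.eq_of_mul_eq_mul_right hpos hm
    subst hmm
    have e3 := all_mem (K := K) M h m B D (by
      intro z
      change (univ.filter (fun k => z ∈ (B k).1)).card = (univ.filter (fun k => z ∈ (D k).1)).card
      rw [← tuple_apply, ← tuple_apply, huv])
    rw [monomial_sum_one, monomial_sum_one]
    exact e3
  · rw [Ideal.span_le]
    rintro f ⟨hf, -⟩
    exact hf

end Pool.Agent.WD
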