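import Pool.Agent.WD.Lift
import Pool.Agent.WD.Dual
import Pool.Agent.WD.Bridge

set_option autoImplicit false

namespace Pool.Agent.WD

open Pool.Agent.H94

/-- For a finite matroid `M` of positive rank and a field `K`, the toric ideal of `M` is generated
by homogeneous elements of degree at most `min (rank M) (rank M✶) + 1`. -/
theorem main {α : Type*} (K : Type*) [Field K] (M : Matroid α) [M.Finite] [M.RankPos]
    (r : ℕ) (hr : min M.eRank M✶.eRank ≤ r) :
    toricIdeal K M =
      Ideal.span {f | f ∈ toricIdeal K M ∧ ∃ n ≤ r + 1, f.IsHomogeneous n} := by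
  classical
  rcases min_le_iff.mp hr with h | h
  · exact toric_of_shareConn M (shareConn_of_rank h)
  · exact toric_of_shareConn M (shareConn_of_dual M (shareConn_of_rank h))

end Pool.Agent.WD
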