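import Mathlib

set_option autoImplicit false

namespace Pool.Agent.WD

open Finset

variable {α : Type*} [DecidableEq α]

/-- Two tuples of finsets have the same content: every element is contained in the same number
of members. -/
def SameContent {m : ℕ} (B D : Fin m → Finset α) : Prop :=
  ∀ z, (univ.filter (fun k => z ∈ B k)).card = (univ.filter (fun k => z ∈ D k)).card

/-- One step: two tuples of bases with the same content which have a common member. -/
def ShareStep (base : Finset α → Prop) {m : ℕ} (B D : Fin m → Finset α) : Prop :=
  (∀ k, base (B k)) ∧ (∀ k, base (D k)) ∧ SameContent B D ∧ ∃ i j, B i = D j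

/-- Tuples of more than `d` bases with the same content are connected through tuples which
successively share a member. -/
def ShareConn (base : Finset α → Prop) (d : ℕ) : Prop :=
  ∀ m, d < m → ∀ B D : Fin m → Finset α, (∀ k, base (B k)) → (∀ k, base (D k)) →
    SameContent B D → Relation.ReflTransGen (ShareStep base) B D

end Pool.Agent.WD
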