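import Pool.Agent.WD.Core
import Pool.Agent.WD.ToricConn
import Pool.Agent.H94.Lift

set_option autoImplicit false

namespace Pool.Agent.WD

open Finset

variable {α : Type*} [DecidableEq α] {M : Matroid α}

/-- Every tuple of finsets is the projection of a tuple of disjoint finsets of `α × ℕ` whose
union only depends on the content. -/
theorem exists_lift {m : ℕ} (B : Fin m → Finset α) :
    ∃ B' : Fin m → Finset (α × ℕ), (∀ k, (B' k).image Prod.fst = B k) ∧
      (∀ k, Set.InjOn Prod.fst (B' k : Set (α × ℕ))) ∧
      Pairwise (Function.onFun Disjoint B') ∧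
      ∀ z n, (∃ k, (z, n) ∈ B' k) ↔ n < (univ.filter (fun k => z ∈ B k)).card := by
  classical
  set c : Fin m → α → ℕ := fun k z => (univ.filter (fun j => j < k ∧ z ∈ B j)).card with hc
  have hlt : ∀ z (k k' : Fin m), z ∈ B k → k < k' → c k z < c k' z := by
    intro z k k' hz hk
    apply card_lt_card
    rw [ssubset_iff_of_subset]
    · refine ⟨k, ?_, ?_⟩
      · simp only [mem_filter, mem_univ, true_and]
        exact ⟨hk, hz⟩
      · simp only [mem_filter, mem_univ, true_and]
        exact fun h => lt_irrefl _ h.1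
    · intro j hj
      simp only [mem_filter, mem_univ, true_and] at hj ⊢
      exact ⟨hj.1.trans hk, hj.2⟩
  have hinj : ∀ z (k k' : Fin m), z ∈ B k → z ∈ B k' → c k z = c k' z → k = k' := by
    intro z k k' hz hz' h
    rcases lt_trichotomy k k' with h1 | h1 | h1
    · exact absurd h (hlt z k k' hz h1).ne
    · exact h1
    · exact absurd h (hlt z k' k hz' h1).ne'
  have hmem : ∀ (k : Fin m) z n, (z, n) ∈ (B k).image (fun z => (z, c k z)) ↔
      z ∈ B k ∧ n = c k z := by
    intro k z n
    rw [mem_image]
    constructor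
    · rintro ⟨v, hv, he⟩
      rw [Prod.mk.injEq] at he
      obtain ⟨rfl, rfl⟩ := he
      exact ⟨hv, rfl⟩
    · rintro ⟨hv, rfl⟩
      exact ⟨z, hv, rfl⟩
  have hcard : ∀ z (k : Fin m), z ∈ B k → c k z < (univ.filter (fun k => z ∈ B k)).card := by
    intro z k hz
    apply card_lt_card
    rw [ssubset_iff_of_subset]
    · refine ⟨k, ?_, ?_⟩
      · simp only [mem_filter, mem_univ, true_and]
        exact hz
      · simp only [mem_filter, mem_univ, true_and]
        exact fun h => lt_irrefl _ h.1
    · intro j hj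
      simp only [mem_filter, mem_univ, true_and] at hj ⊢
      exact hj.2
  refine ⟨fun k => (B k).image (fun z => (z, c k z)), ?_, ?_, ?_, ?_⟩
  · intro k
    rw [image_image]
    exact image_id
  · rintro k ⟨z, n⟩ h1 ⟨z', n'⟩ h2 h
    rw [mem_coe, hmem] at h1 h2
    change z = z' at h
    subst h
    rw [h1.2, h2.2]
  · intro k k' hk
    change Disjoint _ _
    rw [disjoint_left]
    rintro ⟨z, n⟩ h1 h2
    rw [hmem] at h1 h2
    exact hk (hinj z k k' h1.1 h2.1 (h1.2.symm.trans h2.2))
  · intro z n
    constructor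
    · rintro ⟨k, hk⟩
      rw [hmem] at hk
      rw [hk.2]
      exact hcard z k hk.1
    · intro hn
      have h1 : Set.MapsTo (fun k => c k z) (univ.filter (fun k => z ∈ B k) : Finset (Fin m))
          (range (univ.filter (fun k => z ∈ B k)).card : Finset ℕ) := by
        intro k hk
        rw [mem_coe, mem_filter] at hk
        rw [mem_coe, mem_range]
        exact hcard z k hk.2
      have h2 : Set.InjOn (fun k => c k z) (univ.filter (fun k => z ∈ B k) : Finset (Fin m)) := by
        intro k hk k' hk' h
        rw [mem_coe, mem_filter] at hk hk'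
        exact hinj z k k' hk.2 hk'.2 h
      have h3 := surjOn_of_injOn_of_card_le (fun k => c k z) h1 h2 (by rw [card_range])
      obtain ⟨k, hk, he⟩ := h3 (by rw [mem_coe, mem_range]; exact hn)
      rw [mem_coe, mem_filter] at hk
      exact ⟨k, (hmem k z n).2 ⟨hk.2, he.symm⟩⟩

/-- Bases of the matroid in which every element is replaced by countably many parallel
copies. -/
theorem comap_base_iff (S : Set (α × ℕ)) :
    (M.comap (Prod.fst : α × ℕ → α)).IsBase S ↔ M.IsBase (Prod.fst '' S) ∧ Set.InjOn Prod.fst S := by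
  rw [Matroid.comap_isBase_iff, Set.image_preimage_eq _ Prod.fst_surjective,
    Matroid.isBasis_ground_iff]
  constructor
  · rintro ⟨h1, h2, -⟩
    exact ⟨h1, h2⟩
  · rintro ⟨h1, h2⟩
    exact ⟨h1, h2, Set.image_subset_iff.1 h1.subset_ground⟩

private theorem card_of_disjoint {m : ℕ} {P : Fin m → Finset (α × ℕ)}
    (hdP : Pairwise (Function.onFun Disjoint P)) (z : α × ℕ) :
    ((∃ k, z ∈ P k) → (univ.filter (fun k => z ∈ P k)).card = 1) ∧
    ((¬ ∃ k, z ∈ P k) → (univ.filter (fun k => z ∈ P k)).card = 0) := by
  constructor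
  · rintro ⟨k, hk⟩
    rw [card_eq_one]
    refine ⟨k, ?_⟩
    ext j
    simp only [mem_filter, mem_univ, true_and, mem_singleton]
    constructor
    · intro hj
      by_contra hne
      exact disjoint_left.1 (hdP hne) hj hk
    · rintro rfl
      exact hk
  · intro h
    rw [card_eq_zero]
    ext j
    simp only [mem_filter, mem_univ, true_and, notMem_empty, iff_false]
    exact fun hj => h ⟨j, hj⟩

/-- Disjoint tuples with the same union have projections with the same content
(`Pool.Agent.H94.content_proj`). -/
theorem content_of_union {m : ℕ} {P Q : Fin m → Finset (α × ℕ)}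
    (hP : ∀ k, Set.InjOn Prod.fst (P k : Set (α × ℕ)))
    (hQ : ∀ k, Set.InjOn Prod.fst (Q k : Set (α × ℕ)))
    (hdP : Pairwise (Function.onFun Disjoint P)) (hdQ : Pairwise (Function.onFun Disjoint Q))
    (h : ∀ z, (∃ k, z ∈ P k) ↔ ∃ k, z ∈ Q k) :
    SameContent (fun k => (P k).image Prod.fst) (fun k => (Q k).image Prod.fst) := by
  intro z
  apply Pool.Agent.H94.content_proj hP hQ
  intro w
  by_cases hw : ∃ k, w ∈ P k
  · rw [(card_of_disjoint hdP w).1 hw, (card_of_disjoint hdQ w).1 ((h w).1 hw)]
  · rw [(card_of_disjoint hdP w).2 hw, (card_of_disjoint hdQ w).2 (fun h' => hw ((h w).2 h'))]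

/-- Tuples of more than `rank + 1` bases are connected. -/
theorem shareConn_of_rank [M.RankFinite] {r : ℕ} (hr : M.eRank ≤ r) :
    ShareConn (fun B : Finset α => M.IsBase (B : Set α)) (r + 1) := by
  intro m hm B D hB hD hc
  obtain ⟨q, rfl⟩ : ∃ q, m = q + 1 := ⟨m - 1, by omega⟩
  have hrq : r < q := by omega
  obtain ⟨B', b1, b2, b3, b4⟩ := exists_lift B
  obtain ⟨D', d1, d2, d3, d4⟩ := exists_lift D
  set N := M.comap (Prod.fst : α × ℕ → α) with hN
  have hNr : N.eRank < q := by
    have h1 : N.eRank = M.eRank := by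
      rw [Matroid.eRank_def, Matroid.eRank_def, hN, Matroid.eRk_comap, Matroid.comap_ground_eq,
        Set.image_preimage_eq _ Prod.fst_surjective]
    rw [h1]
    refine lt_of_le_of_lt hr ?_
    exact_mod_cast hrq
  set S : Set (α × ℕ) := ⋃ k, (B' k : Set (α × ℕ)) with hS
  have hPB : IsPartn N S (fun k => (B' k : Set (α × ℕ))) := by
    refine ⟨⟨?_, ?_⟩, rfl⟩
    · intro k
      rw [hN, comap_base_iff, ← coe_image, b1]
      exact ⟨hB k, b2 k⟩
    · intro i j hij
      exact disjoint_coe.2 (b3 hij)
  have hPD : IsPartn N S (fun k => (D' k : Set (α × ℕ))) := by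
    refine ⟨⟨?_, ?_⟩, ?_⟩
    · intro k
      rw [hN, comap_base_iff, ← coe_image, d1]
      exact ⟨hD k, d2 k⟩
    · intro i j hij
      exact disjoint_coe.2 (d3 hij)
    · ext ⟨z, n⟩
      rw [hS, Set.mem_iUnion, Set.mem_iUnion]
      simp only [mem_coe]
      rw [b4, d4, hc z]
  have key : ∀ R : Fin (q + 1) → Set (α × ℕ),
      Relation.ReflTransGen (Share N S) (fun k => (B' k : Set (α × ℕ))) R →
      IsPartn N S R ∧ ∃ R' : Fin (q + 1) → Finset (α × ℕ), (∀ k, (R' k : Set (α × ℕ)) = R k) ∧
        Relation.ReflTransGen (ShareStep (fun B : Finset α => M.IsBase (B : Set α))) B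
          (fun k => (R' k).image Prod.fst) := by
    intro R hR
    induction hR with
    | refl =>
      refine ⟨hPB, B', fun k => rfl, ?_⟩
      have : (fun k => (B' k).image Prod.fst) = B := funext b1
      rw [this]
    | @tail R R1 _ hst ih =>
      obtain ⟨hPR, R', r1, r2⟩ := ih
      obtain ⟨-, hP1, i, j, hij⟩ := hst
      have hfin : ∀ k, (R1 k).Finite := fun k => (hP1.1.1 k).finite
      refine ⟨hP1, fun k => (hfin k).toFinset, fun k => (hfin k).coe_toFinset, r2.tail ?_⟩
      have q1 : ∀ k, M.IsBase (((R' k).image Prod.fst : Finset α) : Set α) ∧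
          Set.InjOn Prod.fst (R' k : Set (α × ℕ)) := by
        intro k
        have h1 := hPR.1.1 k
        rw [← r1 k, hN, comap_base_iff, ← coe_image] at h1
        exact h1
      have q2 : ∀ k, M.IsBase (((hfin k).toFinset.image Prod.fst : Finset α) : Set α) ∧
          Set.InjOn Prod.fst ((hfin k).toFinset : Set (α × ℕ)) := by
        intro k
        have h1 := hP1.1.1 k
        rw [← (hfin k).coe_toFinset, hN, comap_base_iff, ← coe_image] at h1
        exact h1
      refine ⟨fun k => (q1 k).1, fun k => (q2 k).1, ?_, i, j, ?_⟩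
      · apply content_of_union (fun k => (q1 k).2) (fun k => (q2 k).2)
        · intro a b hab
          have h1 := hPR.1.2 hab
          change Disjoint (R a) (R b) at h1
          rw [← r1 a, ← r1 b, disjoint_coe] at h1
          exact h1
        · intro a b hab
          have h1 := hP1.1.2 hab
          change Disjoint (R1 a) (R1 b) at h1
          rw [← (hfin a).coe_toFinset, ← (hfin b).coe_toFinset, disjoint_coe] at h1
          exact h1
        · intro z
          have h1 : z ∈ S ↔ ∃ k, z ∈ R' k := by
            rw [← hPR.2, Set.mem_iUnion]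
            simp only [← r1, mem_coe]
          have h2 : z ∈ S ↔ ∃ k, z ∈ (hfin k).toFinset := by
            rw [← hP1.2, Set.mem_iUnion]
            simp only [Set.Finite.mem_toFinset]
          rw [← h1, ← h2]
      · change (R' i).image Prod.fst = (hfin j).toFinset.image Prod.fst
        congr 1
        apply coe_injective
        rw [r1 i, (hfin j).coe_toFinset]
        exact hij
  obtain ⟨-, R', r1, r2⟩ := key _ (core hNr _ _ hPB hPD)
  have h1 : R' = D' := by
    funext k
    exact coe_injective (r1 k)
  rw [h1] at r2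
  have h2 : (fun k => (D' k).image Prod.fst) = D := funext d1
  rw [h2] at r2
  exact r2

end Pool.Agent.WD
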