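import Pool.Agent.WD.Defs

set_option autoImplicit false

namespace Pool.Agent.WD

open Set

variable {α : Type*} {ι : Type*} {M : Matroid α} {A : ι → Set α} {J J' : Set ι}

/-- The ground set is tight. -/
theorem tight_ground (hA : ∀ l, M.IsBase (A l)) : Tight M A J M.E := by
  refine ⟨M.ground_isFlat, fun l _ => ?_⟩
  rw [inter_eq_self_of_subset_left (hA l).subset_ground, (hA l).closure_eq]

/-- The set of loops is tight. -/
theorem tight_loops : Tight M A J (M.closure ∅) := by
  refine ⟨M.isFlat_closure ∅, fun l _ => Subset.antisymm ?_ (M.closure_subset_closure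
    (empty_subset _))⟩
  have h := M.closure_subset_closure (inter_subset_right (s := A l) (t := M.closure ∅))
  rwa [M.closure_closure] at h

/-- Intersections of nonempty families of tight flats are tight
(`Matroid.Indep.closure_sInter_eq_biInter_closure_of_forall_subset`). -/
theorem tight_sInter (hA : ∀ l, M.IsBase (A l)) {Fs : Set (Set α)} (hne : Fs.Nonempty)
    (h : ∀ F ∈ Fs, Tight M A J F) : Tight M A J (⋂₀ Fs) := by
  have hne' := hne.coe_sort
  refine ⟨?_, fun l hl => ?_⟩
  · rw [sInter_eq_iInter]
    exact Matroid.IsFlat.iInter fun F => (h F.1 F.2).1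
  · have h1 : A l ∩ ⋂₀ Fs = ⋂ F : Fs, A l ∩ F.1 := by
      rw [sInter_eq_iInter, inter_iInter]
    rw [h1, (hA l).indep.closure_iInter_eq_biInter_closure_of_forall_subset
      (fun F => inter_subset_left), sInter_eq_iInter]
    exact iInter_congr fun F => (h F.1 F.2).2 l hl

/-- Joins of tight flats are tight. -/
theorem tight_join {F G : Set α} (hF : Tight M A J F) (hG : Tight M A J G) :
    Tight M A J (M.closure (F ∪ G)) := by
  refine ⟨M.isFlat_closure _, fun l hl => Subset.antisymm ?_ ?_⟩
  · have h := M.closure_subset_closure (inter_subset_right (s := A l) (t := M.closure (F ∪ G)))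
    rwa [M.closure_closure] at h
  · have hFG : F ∪ G ⊆ M.closure (F ∪ G) :=
      M.subset_closure _ (union_subset hF.1.subset_ground hG.1.subset_ground)
    apply M.closure_subset_closure_of_subset_closure
    apply union_subset
    · calc F = M.closure (A l ∩ F) := (hF.2 l hl).symm
        _ ⊆ _ := M.closure_subset_closure (inter_subset_inter_right _
          (subset_union_left.trans hFG))
    · calc G = M.closure (A l ∩ G) := (hG.2 l hl).symm
        _ ⊆ _ := M.closure_subset_closure (inter_subset_inter_right _
          (subset_union_right.trans hFG))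

/-- The join of two tight flats contains no new elements of the bases `A l`. -/
theorem join_inter (hA : ∀ l, M.IsBase (A l)) {F G : Set α} (hF : Tight M A J F)
    (hG : Tight M A J G) {l : ι} (hl : l ∈ J) {y : α} (hy : y ∈ A l)
    (hyF : y ∈ M.closure (F ∪ G)) : y ∈ F ∪ G := by
  have h1 : M.closure (F ∪ G) = M.closure (A l ∩ (F ∪ G)) := by
    have h0 : M.closure (A l ∩ (F ∪ G)) =
        M.closure (M.closure (A l ∩ F) ∪ M.closure (A l ∩ G)) := by
      rw [inter_union_distrib_left, M.closure_union_closure_left_eq,
        M.closure_union_closure_right_eq]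
    rw [h0, hF.2 l hl, hG.2 l hl]
  rw [h1] at hyF
  have h2 := (hA l).indep.closure_inter_eq_self_of_subset
    (inter_subset_left (s := A l) (t := F ∪ G))
  have h3 : y ∈ M.closure (A l ∩ (F ∪ G)) ∩ A l := ⟨hyF, hy⟩
  rw [h2] at h3
  exact h3.2

/-- Least tight flat containing a given set. -/
theorem exists_least (hA : ∀ l, M.IsBase (A l)) (J : Set ι) {X : Set α} (hX : X ⊆ M.E) :
    ∃ L, Tight M A J L ∧ X ⊆ L ∧ ∀ F, Tight M A J F → X ⊆ F → L ⊆ F := by
  refine ⟨⋂₀ {F | Tight M A J F ∧ X ⊆ F}, tight_sInter hA ⟨M.E, tight_ground hA, hX⟩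
    (fun F hF => hF.1), subset_sInter fun F hF => hF.2, fun F hF hXF =>
    sInter_subset_of_mem ⟨hF, hXF⟩⟩

private theorem tight_of_change_aux [M.RankFinite] {A A' : ι → Set α}
    (hA : ∀ l, M.IsBase (A l))
    (hA' : ∀ l, M.IsBase (A' l)) {T F : Set α} (hT : Tight M A J T)
    (hc : ∀ l, A' l \ T = A l \ T) (hTF : T ⊆ F) (hF : Tight M A J F) :
    Tight M A' J F := by
  refine ⟨hF.1, fun l hl => ?_⟩
  have hfin : (A l).Finite := (hA l).finite
  have hfin' : (A' l).Finite := (hA' l).finite
  have hcard : (A' l ∩ T).encard = (A l ∩ T).encard := by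
    have h1 : (A l).encard = (A' l).encard := by
      rw [(hA l).encard_eq_eRank, (hA' l).encard_eq_eRank]
    have h2 : (A l \ T).encard + (A l ∩ T).encard = (A l).encard :=
      encard_sdiff_add_encard_inter _ _
    have h3 : (A' l \ T).encard + (A' l ∩ T).encard = (A' l).encard :=
      encard_sdiff_add_encard_inter _ _
    rw [hc l] at h3
    have h4 : (A l \ T).encard ≠ ⊤ := by
      rw [encard_ne_top_iff]
      exact hfin.sdiff
    rw [← h1, ← h2] at h3
    exact ENat.add_right_injective_of_ne_top h4 h3
  have hind : M.Indep (A' l ∩ T) := (hA' l).indep.subset inter_subset_left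
  have hTb : M.IsBasis (A' l ∩ T) T := by
    apply hind.isBasis_of_eRk_ge (hfin'.subset inter_subset_left) inter_subset_right _
      hT.1.subset_ground
    rw [hind.eRk_eq_encard, hcard, ← ((hA l).indep.subset inter_subset_left).eRk_eq_encard,
      ← M.eRk_closure_eq (A l ∩ T), hT.2 l hl]
  apply Subset.antisymm
  · have h := M.closure_subset_closure (inter_subset_right (s := A' l) (t := F))
    rwa [hF.1.closure] at h
  · have hTsub : T ⊆ M.closure (A' l ∩ F) :=
      hTb.subset_closure.trans (M.closure_subset_closure (inter_subset_inter_right _ hTF))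
    have hkey : A l ∩ F ⊆ M.closure (A' l ∩ F) := by
      intro e he
      by_cases heT : e ∈ T
      · exact hTsub heT
      · have h5 : e ∈ A' l \ T := by
          rw [hc l]
          exact ⟨he.1, heT⟩
        exact M.mem_closure_of_mem ⟨h5.1, he.2⟩ (inter_subset_left.trans (hA' l).subset_ground)
    have h6 := M.closure_subset_closure_of_subset_closure hkey
    rwa [hF.2 l hl] at h6

/-- Changing the bases inside a tight flat does not affect the tight flats above it. -/
theorem tight_of_change [M.RankFinite] {A' : ι → Set α} (hA : ∀ l, M.IsBase (A l))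
    (hA' : ∀ l, M.IsBase (A' l)) {T F : Set α} (hT : Tight M A J T)
    (hc : ∀ l, A' l \ T = A l \ T) (hTF : T ⊆ F) :
    Tight M A J F ↔ Tight M A' J F := by
  refine ⟨tight_of_change_aux hA hA' hT hc hTF, tight_of_change_aux hA' hA
    (tight_of_change_aux hA hA' hT hc subset_rfl hT) (fun l => (hc l).symm) hTF⟩

end Pool.Agent.WD
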