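import Pool.Agent.WD.Step

set_option autoImplicit false

namespace Pool.Agent.WD

open Set

variable {α : Type*} {M : Matroid α}

/-- Partitions of `S` into bases. -/
def IsPartn {κ : Type*} (M : Matroid α) (S : Set α) (P : κ → Set α) : Prop :=
  IsFam M P ∧ (⋃ k, P k) = S

/-- Two partitions share a base. -/
def Share {κ : Type*} (M : Matroid α) (S : Set α) (P P' : κ → Set α) : Prop :=
  IsPartn M S P ∧ IsPartn M S P' ∧ ∃ i j, P i = P' j

private theorem core_isPart {q : ℕ} {S : Set α} {P : Fin (q + 1) → Set α} (hP : IsPartn M S P) :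
    IsPart M S (P 0) (fun l : Fin q => P l.succ) := by
  refine ⟨hP.1.1 0, ⟨fun l => hP.1.1 _, ?_⟩, ?_, ?_⟩
  · intro i j hij
    exact hP.1.2 (fun h => hij (Fin.succ_injective _ h))
  · intro l
    exact hP.1.2 (Fin.succ_ne_zero l).symm
  · rw [← hP.2]
    ext x
    simp only [mem_union, mem_iUnion]
    constructor
    · rintro (h | ⟨l, h⟩)
      · exact ⟨0, h⟩
      · exact ⟨_, h⟩
    · rintro ⟨k, h⟩
      rcases Fin.eq_zero_or_eq_succ k with rfl | ⟨l, rfl⟩
      · exact Or.inl h
      · exact Or.inr ⟨l, h⟩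

private theorem core_isPartn {q : ℕ} {S B : Set α} {A : Fin q → Set α} (h : IsPart M S B A) :
    IsPartn M S (Fin.cons B A : Fin (q + 1) → Set α) := by
  obtain ⟨h1, h2, h3, h4⟩ := h
  refine ⟨⟨?_, ?_⟩, ?_⟩
  · intro l
    rcases Fin.eq_zero_or_eq_succ l with rfl | ⟨l, rfl⟩
    · simpa using h1
    · simpa using h2.1 l
  · intro i j hij
    rcases Fin.eq_zero_or_eq_succ i with rfl | ⟨i, rfl⟩
    · rcases Fin.eq_zero_or_eq_succ j with rfl | ⟨j, rfl⟩
      · exact absurd rfl hij
      · simpa [Function.onFun] using h3 j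
    · rcases Fin.eq_zero_or_eq_succ j with rfl | ⟨j, rfl⟩
      · simpa [Function.onFun] using (h3 i).symm
      · have hne : i ≠ j := fun h => hij (by rw [h])
        simpa [Function.onFun] using h2.2 hne
  · rw [← h4]
    ext x
    simp only [mem_union, mem_iUnion]
    constructor
    · rintro ⟨k, h⟩
      rcases Fin.eq_zero_or_eq_succ k with rfl | ⟨l, rfl⟩
      · exact Or.inl (by simpa using h)
      · exact Or.inr ⟨l, by simpa using h⟩
    · rintro (h | ⟨l, h⟩)
      · exact ⟨0, by simpa using h⟩
      · exact ⟨l.succ, by simpa using h⟩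

/-- Any two partitions of `S` into `q + 1 ≥ rank + 2` bases are connected by a chain in which
consecutive partitions share a base. -/
theorem core [M.RankFinite] {q : ℕ} (hq : M.eRank < q) {S : Set α}
    (P Q : Fin (q + 1) → Set α) (hP : IsPartn M S P) (hQ : IsPartn M S Q) :
    Relation.ReflTransGen (Share M S) P Q := by
  induction h : (P 0 \ Q 0).ncard using Nat.strong_induction_on generalizing P with
  | _ n ih =>
    by_cases h0 : P 0 = Q 0
    · exact Relation.ReflTransGen.single ⟨hP, hQ, 0, 0, h0⟩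
    · have hr : M.eRank < ENat.card (Fin q) := by simpa using hq
      obtain ⟨B', A', l, hP', hl, hlt⟩ := step hr (core_isPart hP) (core_isPart hQ) h0
      have hP'' := core_isPartn hP'
      have h1 : Share M S P (Fin.cons B' A' : Fin (q + 1) → Set α) :=
        ⟨hP, hP'', l.succ, l.succ, by simp [hl]⟩
      refine Relation.ReflTransGen.head h1 (ih _ ?_ _ hP'' rfl)
      rw [← h]
      simpa using hlt

end Pool.Agent.WD
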