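import Pool.Agent.WD.Defs

set_option autoImplicit false

namespace Pool.Agent.WD

open Set

variable {α : Type*} {ι : Type*} {M : Matroid α}

/-- Independent part: if `B - v + z` and `B - w + x` are bases and `B - v + x` is not a base
(with `v, w ∈ B`, `z, x ∉ B`), then `B - w + x - v + z` is a base. -/
theorem double_exchange {B : Set α} (hB : M.IsBase B) {v w x z : α} (hv : v ∈ B) (hw : w ∈ B)
    (hz : z ∉ B) (hx : x ∉ B) (h1 : M.IsBase (insert z (B \ {v})))
    (h2 : M.IsBase (insert x (B \ {w}))) (h3 : ¬ M.IsBase (insert x (B \ {v}))) :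
    M.IsBase (insert z (insert x (B \ {w}) \ {v})) := by
  have hvw : v ≠ w := by rintro rfl; exact h3 h2
  have hzx : z ≠ x := by rintro rfl; exact h3 h1
  have hxv : x ≠ v := by rintro rfl; exact hx hv
  have hzw : z ≠ w := by rintro rfl; exact hz hw
  have hxE : x ∈ M.E := h2.subset_ground (mem_insert _ _)
  have hw2 : w ∈ insert z (B \ {v}) := mem_insert_of_mem _ ⟨hw, fun h => hvw h.symm⟩
  -- `x` is in the closure of `B \ {v}`
  have hxcl : x ∈ M.closure (B \ {v}) := by
    by_contra hn
    exact h3 (hB.exchange_base_of_notMem_closure hv hn hxE)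
  have hxncl : x ∉ M.closure (B \ {w}) := by
    have hi : M.Indep (insert x (B \ {w})) := h2.indep
    have := hi.notMem_closure_sdiff_of_mem (mem_insert x _)
    intro hmem
    apply this
    refine M.closure_subset_closure ?_ hmem
    intro e he
    refine ⟨mem_insert_of_mem _ he, ?_⟩
    rintro rfl
    exact hx he.1
  have key : x ∉ M.closure (insert z (B \ {v}) \ {w}) := by
    intro hmem
    have hU : (insert z (B \ {v}) \ {w}) ∪ (B \ {v}) ⊆ insert z (B \ {v}) := by
      intro e he
      rcases he with he | he
      · exact he.1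
      · exact mem_insert_of_mem _ he
    have hI : M.Indep ((insert z (B \ {v}) \ {w}) ∪ (B \ {v})) := h1.indep.subset hU
    have h4 : x ∈ M.closure ((insert z (B \ {v}) \ {w}) ∩ (B \ {v})) := by
      rw [hI.closure_inter_eq_inter_closure]
      exact ⟨hmem, hxcl⟩
    apply hxncl
    refine M.closure_subset_closure ?_ h4
    rintro e ⟨⟨-, he2⟩, he3⟩
    exact ⟨he3.1, he2⟩
  have h5 := h1.exchange_base_of_notMem_closure hw2 key hxE
  have h6 : insert z (insert x (B \ {w}) \ {v}) = insert x (insert z (B \ {v}) \ {w}) := by
    ext e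
    simp only [mem_insert_iff, mem_sdiff, mem_singleton_iff]
    constructor
    · rintro (rfl | ⟨rfl | ⟨h, h'⟩, h''⟩)
      · exact Or.inr ⟨Or.inl rfl, hzw⟩
      · exact Or.inl rfl
      · exact Or.inr ⟨Or.inr ⟨h, h''⟩, h'⟩
    · rintro (rfl | ⟨rfl | ⟨h, h'⟩, h''⟩)
      · exact Or.inr ⟨Or.inl rfl, hxv⟩
      · exact Or.inl rfl
      · exact Or.inr ⟨Or.inr ⟨h, h''⟩, h'⟩
  rw [h6]
  exact h5

/-- Transfer of a walk after the first exchange. -/
private theorem walk_transfer [DecidableEq ι] {J : Set ι} {W : Set α} {A : ι → Set α}
    (hA : IsFam M A) {x w : α} {l : ι} (hl : l ∈ J) (hxW : x ∈ W) (hwA : w ∈ A l)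
    (hxA : ∀ l, x ∉ A l) (hbase : M.IsBase (insert x (A l \ {w}))) (hE : Edge M A J W x w)
    {y : α} (m : ℕ) :
    ∀ z, (∀ v m', m' < m → Walk M A J W m' v y → ¬ Edge M A J W x v) →
      Walk M A J W m z y →
      Walk M (Function.update A l (insert x (A l \ {w}))) J W m z y := by
  induction m with
  | zero => intro z _ h; exact h
  | succ m ih =>
    intro z hno hwalk
    obtain ⟨v, ⟨hzW, hvW, l', hl', hvl', hzl', hb⟩, hv⟩ := hwalk
    have hnv : ¬ Edge M A J W x v := hno v m (Nat.lt_succ_self m) hv
    have hvw : v ≠ w := by rintro rfl; exact hnv hE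
    have hzx : z ≠ x := by
      rintro rfl
      exact hnv ⟨hzW, hvW, l', hl', hvl', hzl', hb⟩
    refine ⟨v, ⟨hzW, hvW, l', hl', ?_⟩, ih v (fun u m' hm' => hno u m' (Nat.lt_succ_of_lt hm')) hv⟩
    by_cases hll : l' = l
    · subst hll
      rw [Function.update_self]
      refine ⟨mem_insert_of_mem _ ⟨hvl', hvw⟩, ?_, ?_⟩
      · rintro (h | h)
        · exact hzx h
        · exact hzl' h.1
      · refine double_exchange (hA.1 l') hvl' hwA hzl' (hxA l') hb hbase ?_
        intro hb'
        exact hnv ⟨hxW, hvW, l', hl', hvl', hxA l', hb'⟩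
    · rw [Function.update_of_ne hll]
      exact ⟨hvl', hzl', hb⟩

/-- Augmentation along a walk from `x` (outside all the bases) to `y`. -/
theorem augment {J : Set ι} {W : Set α} (n : ℕ) :
    ∀ (A : ι → Set α) (x y : α), IsFam M A → (∀ l, x ∉ A l) → x ≠ y → Walk M A J W n x y →
    ∃ A' : ι → Set α, IsFam M A' ∧ (⋃ l, A' l) = insert x ((⋃ l, A l) \ {y}) ∧
      (∀ l, l ∉ J → A' l = A l) ∧ ∀ l, A' l \ W = A l \ W := by
  classical
  induction n using Nat.strong_induction_on with
  | _ n ih =>
    intro A x y hA hxA hxy hwalk
    by_cases hshort : ∃ m < n, Walk M A J W m x y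
    · obtain ⟨m, hm, hw⟩ := hshort
      exact ih m hm A x y hA hxA hxy hw
    push Not at hshort
    cases n with
    | zero => exact absurd hwalk hxy
    | succ k =>
      obtain ⟨w, hE, hw⟩ := hwalk
      obtain ⟨hxW, hwW, l, hl, hwl, hxl, hb⟩ := id hE
      have hxw : x ≠ w := by rintro rfl; exact hxl hwl
      set A1 : ι → Set α := Function.update A l (insert x (A l \ {w})) with hA1
      have hA1l : A1 l = insert x (A l \ {w}) := by rw [hA1, Function.update_self]
      have hA1n : ∀ l', l' ≠ l → A1 l' = A l' := by
        intro l' h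
        rw [hA1, Function.update_of_ne h]
      have hdis : ∀ l', l' ≠ l → Disjoint (insert x (A l \ {w})) (A l') := by
        intro l' hne
        rw [Set.disjoint_left]
        rintro e (rfl | he) he'
        · exact hxA l' he'
        · exact Set.disjoint_left.mp (hA.2 hne) he' he.1
      have hFam : IsFam M A1 := by
        refine ⟨?_, ?_⟩
        · intro l'
          by_cases h : l' = l
          · subst h; rw [hA1l]; exact hb
          · rw [hA1n l' h]; exact hA.1 l'
        · intro i j hij
          show Disjoint (A1 i) (A1 j)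
          by_cases hi : i = l
          · subst hi
            rw [hA1l, hA1n j (Ne.symm hij)]
            exact hdis j (Ne.symm hij)
          · by_cases hj : j = l
            · subst hj
              rw [hA1l, hA1n i hij]
              exact (hdis i hij).symm
            · rw [hA1n i hi, hA1n j hj]
              exact hA.2 hij
      have hUn : (⋃ l', A1 l') = insert x ((⋃ l', A l') \ {w}) := by
        ext e
        simp only [mem_iUnion, mem_insert_iff, mem_sdiff, mem_singleton_iff]
        constructor
        · rintro ⟨l', he⟩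
          by_cases h : l' = l
          · subst h
            rw [hA1l] at he
            rcases he with rfl | he
            · exact Or.inl rfl
            · exact Or.inr ⟨⟨l', he.1⟩, he.2⟩
          · rw [hA1n l' h] at he
            refine Or.inr ⟨⟨l', he⟩, ?_⟩
            rintro rfl
            exact Set.disjoint_left.mp (hA.2 h) he hwl
        · rintro (rfl | ⟨⟨l', he⟩, hew⟩)
          · exact ⟨l, by rw [hA1l]; exact mem_insert _ _⟩
          · by_cases h : l' = l
            · subst h
              exact ⟨l', by rw [hA1l]; exact mem_insert_of_mem _ ⟨he, hew⟩⟩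
            · exact ⟨l', by rw [hA1n l' h]; exact he⟩
      have hW1 : ∀ l', A1 l' \ W = A l' \ W := by
        intro l'
        by_cases h : l' = l
        · subst h
          rw [hA1l]
          ext e
          simp only [mem_sdiff, mem_insert_iff, mem_singleton_iff]
          constructor
          · rintro ⟨rfl | he, hW⟩
            · exact absurd hxW hW
            · exact ⟨he.1, hW⟩
          · rintro ⟨he, hW⟩
            refine ⟨Or.inr ⟨he, ?_⟩, hW⟩
            rintro rfl
            exact hW hwW
        · rw [hA1n l' h]
      by_cases hwy : w = y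
      · subst hwy
        refine ⟨A1, hFam, hUn, ?_, hW1⟩
        intro l' hl'
        apply hA1n
        rintro rfl
        exact hl' hl
      · have hno : ∀ v m', m' < k → Walk M A J W m' v y → ¬ Edge M A J W x v := by
          intro v m' hm' hv hxv
          exact hshort (m' + 1) (by omega) ⟨v, hxv, hv⟩
        have hw1 : Walk M A1 J W k w y :=
          walk_transfer hA hl hxW hwl hxA hb hE k w hno hw
        have hwA1 : ∀ l', w ∉ A1 l' := by
          intro l' he
          by_cases h : l' = l
          · subst h
            rw [hA1l] at he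
            rcases he with he | he
            · exact hxw he.symm
            · exact he.2 rfl
          · rw [hA1n l' h] at he
            exact Set.disjoint_left.mp (hA.2 h) he hwl
        obtain ⟨A', h1, h2, h3, h4⟩ := ih k (Nat.lt_succ_self k) A1 w y hFam hwA1 hwy hw1
        refine ⟨A', h1, ?_, ?_, ?_⟩
        · rw [h2, hUn]
          ext e
          simp only [mem_insert_iff, mem_sdiff, mem_singleton_iff]
          constructor
          · rintro (rfl | ⟨rfl | ⟨he, hew⟩, hey⟩)
            · exact Or.inr ⟨mem_iUnion.mpr ⟨l, hwl⟩, hwy⟩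
            · exact Or.inl rfl
            · exact Or.inr ⟨he, hey⟩
          · rintro (rfl | ⟨he, hey⟩)
            · exact Or.inr ⟨Or.inl rfl, hxy⟩
            · by_cases hew : e = w
              · exact Or.inl hew
              · exact Or.inr ⟨Or.inr ⟨he, hew⟩, hey⟩
        · intro l' hl'
          rw [h3 l' hl']
          apply hA1n
          rintro rfl
          exact hl' hl
        · intro l'
          rw [h4 l', hW1 l']

end Pool.Agent.WD
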