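import Pool.Agent.WD.Defs

set_option autoImplicit false

namespace Pool.Agent.WD

open Set

variable {α : Type*} {ι : Type*} {M : Matroid α}

/-- Cardinality of a union of pairwise disjoint finite sets, as a sum. -/
private theorem ncard_iUnion_eq [Fintype ι] (A : ι → Set α) (hfin : ∀ l, (A l).Finite)
    (hd : Pairwise (Function.onFun Disjoint A)) : (⋃ l, A l).ncard = ∑ l, (A l).ncard := by
  classical
  have h1 : (⋃ l, A l) = (((Finset.univ : Finset ι).biUnion (fun l => (hfin l).toFinset) :
      Finset α) : Set α) := by
    ext x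
    simp
  rw [h1, Set.ncard_coe_finset, Finset.card_biUnion]
  · refine Finset.sum_congr rfl (fun l _ => ?_)
    rw [Set.ncard_eq_toFinset_card _ (hfin l)]
  · intro i _ j _ hij
    have := hd hij
    rw [Function.onFun, Set.disjoint_left] at this
    rw [Function.onFun, Finset.disjoint_left]
    intro x hx hx'
    simp only [Set.Finite.mem_toFinset] at hx hx'
    exact this hx hx'

/-- Counting: a tight flat for the partition `(B, A)` containing an element of `B \ C` contains
an element of `C \ B`, if `C` also belongs to a partition of the same set into bases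
(`|T ∩ ⋃ A l| = q rk T ≥ |T ∩ ⋃ D l|`). -/
theorem count_exchange [Finite ι] [M.RankFinite] {S B C : Set α} {A D : ι → Set α}
    (hP : IsPart M S B A) (hQ : IsPart M S C D) {T : Set α} (hT : Tight M A univ T) {x : α}
    (hx : x ∈ T) (hxB : x ∈ B) (hxC : x ∉ C) : ∃ y ∈ T, y ∈ C ∧ y ∉ B := by
  classical
  have := Fintype.ofFinite ι
  obtain ⟨hB, hA, hBA, hS⟩ := hP
  obtain ⟨hC, hD, hCD, hS'⟩ := hQ
  by_contra hcon
  push Not at hcon
  have hfA : ∀ l, (A l ∩ T).Finite := fun l => (hA.1 l).finite.subset inter_subset_left
  have hfD : ∀ l, (D l ∩ T).Finite := fun l => (hD.1 l).finite.subset inter_subset_left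
  have hdA : Pairwise (Function.onFun Disjoint (fun l => A l ∩ T)) := by
    intro i j hij
    exact (hA.2 hij).mono inter_subset_left inter_subset_left
  have hdD : Pairwise (Function.onFun Disjoint (fun l => D l ∩ T)) := by
    intro i j hij
    exact (hD.2 hij).mono inter_subset_left inter_subset_left
  have hle : ∀ l, (D l ∩ T).ncard ≤ (A l ∩ T).ncard := by
    intro l
    have h1 : M.IsBasis (A l ∩ T) T := by
      refine ((hA.1 l).indep.subset inter_subset_left).isBasis_of_subset_of_subset_closure
        inter_subset_right ?_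
      exact (hT.2 l (mem_univ l)).symm.subset
    have h2 : M.Indep (D l ∩ T) := (hD.1 l).indep.subset inter_subset_left
    have h3 := h2.encard_le_eRk_of_subset inter_subset_right
    rw [← h1.encard_eq_eRk] at h3
    rwa [← (hfD l).cast_ncard_eq, ← (hfA l).cast_ncard_eq, Nat.cast_le] at h3
  have hsum : (⋃ l, (D l ∩ T)).ncard ≤ (⋃ l, (A l ∩ T)).ncard := by
    rw [ncard_iUnion_eq _ hfA hdA, ncard_iUnion_eq _ hfD hdD]
    exact Finset.sum_le_sum (fun l _ => hle l)
  have hUA : (S ∩ T) = (B ∩ T) ∪ ⋃ l, (A l ∩ T) := by
    rw [← hS, union_inter_distrib_right, iUnion_inter]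
  have hUD : (S ∩ T) = (C ∩ T) ∪ ⋃ l, (D l ∩ T) := by
    rw [← hS', union_inter_distrib_right, iUnion_inter]
  have hcA : (S ∩ T).ncard = (B ∩ T).ncard + (⋃ l, (A l ∩ T)).ncard := by
    rw [hUA]
    refine Set.ncard_union_eq ?_ (hB.finite.subset inter_subset_left) (finite_iUnion hfA)
    rw [disjoint_iUnion_right]
    exact fun l => (hBA l).mono inter_subset_left inter_subset_left
  have hcD : (S ∩ T).ncard = (C ∩ T).ncard + (⋃ l, (D l ∩ T)).ncard := by
    rw [hUD]
    refine Set.ncard_union_eq ?_ (hC.finite.subset inter_subset_left) (finite_iUnion hfD)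
    rw [disjoint_iUnion_right]
    exact fun l => (hCD l).mono inter_subset_left inter_subset_left
  have hlt : (C ∩ T).ncard < (B ∩ T).ncard := by
    refine Set.ncard_lt_ncard ?_ (hB.finite.subset inter_subset_left)
    refine ⟨fun y hy => ⟨hcon y hy.2 hy.1, hy.2⟩, fun hsub => ?_⟩
    exact hxC (hsub ⟨hxB, hx⟩).1
  omega

/-- If `y i` can replace `x j` in `B` exactly for `j = i + 1`, then all exchanges can be made
simultaneously. -/
theorem base_of_chordless {B : Set α} (hB : M.IsBase B) (hfin : B.Finite) {s : ℕ}
    (x y : Fin (s + 1) → α) (hxi : Function.Injective x) (hx : ∀ i, x i ∈ B)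
    (hy : ∀ i, y i ∉ B) (h1 : ∀ i, M.IsBase (insert (y i) (B \ {x (i + 1)})))
    (h2 : ∀ i j, M.IsBase (insert (y i) (B \ {x j})) → j = i + 1) :
    M.IsBase ((B \ range x) ∪ range y) := by
  classical
  have hyE : ∀ i, y i ∈ M.E := fun i => (h1 i).subset_ground (mem_insert _ _)
  have hBE := hB.subset_ground
  have hB'E : (B \ range x) ∪ range y ⊆ M.E := by
    refine union_subset (sdiff_subset.trans hBE) ?_
    rintro _ ⟨i, rfl⟩
    exact hyE i
  -- the closures avoiding a single element
  have hcl : ∀ i j, j ≠ i + 1 → y i ∈ M.closure (B \ {x j}) := by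
    intro i j hj
    by_contra hn
    apply hj
    apply h2
    have hind : M.Indep (insert (y i) (B \ {x j})) := by
      rw [← (hB.indep.subset sdiff_subset).notMem_closure_iff_of_notMem
        (fun h => hy i h.1) (hyE i)]
      exact hn
    exact hB.exchange_isBase_of_indep (hy i) hind
  have hcl2 : ∀ i, y i ∈ M.closure (insert (x (i + 1)) (B \ range x)) := by
    intro i
    have h3 := Matroid.Indep.closure_iInter_eq_biInter_closure_of_forall_subset (M := M)
      (I := B) (Js := fun j : Fin (s + 1) => if j = i + 1 then B else B \ {x j}) hB.indep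
      (by intro j; split_ifs; exacts [subset_rfl, sdiff_subset])
    have h4 : y i ∈ M.closure (⋂ j : Fin (s + 1), if j = i + 1 then B else B \ {x j}) := by
      rw [h3, mem_iInter]
      intro j
      split_ifs with h
      · rw [hB.closure_eq]
        exact hyE i
      · exact hcl i j h
    refine M.closure_subset_closure ?_ h4
    intro z hz
    rw [mem_iInter] at hz
    have hzB : z ∈ B := by
      have := hz 0
      split_ifs at this
      exacts [this, this.1]
    by_cases hzx : z = x (i + 1)
    · exact Or.inl hzx
    · right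
      refine ⟨hzB, ?_⟩
      rintro ⟨j, rfl⟩
      have h5 := hz j
      have h6 : j ≠ i + 1 := fun h => hzx (by rw [h])
      rw [if_neg h6] at h5
      exact h5.2 rfl
  have hcl3 : ∀ i, y i ∉ M.closure (B \ range x) := by
    intro i h
    have h3 : y i ∈ M.closure (B \ {x (i + 1)}) := by
      refine M.closure_subset_closure ?_ h
      intro z hz
      exact ⟨hz.1, fun h' => hz.2 ⟨i + 1, h'.symm⟩⟩
    have h4 := (hB.indep.subset (sdiff_subset (t := {x (i + 1)}))).notMem_closure_iff_of_notMem
      (fun h => hy i h.1) (hyE i)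
    exact h4.2 (h1 i).indep h3
  have hxcl : ∀ i, x (i + 1) ∈ M.closure ((B \ range x) ∪ range y) := by
    intro i
    have h3 := M.closure_exchange (X := B \ range x) ⟨hcl2 i, hcl3 i⟩
    refine M.closure_subset_closure ?_ h3.1
    intro z hz
    rcases hz with hz | hz
    · exact Or.inr ⟨i, hz.symm⟩
    · exact Or.inl hz
  have hxcl' : ∀ i, x i ∈ M.closure ((B \ range x) ∪ range y) := by
    intro i
    have := hxcl (i - 1)
    rwa [sub_add_cancel] at this
  have hBcl : B ⊆ M.closure ((B \ range x) ∪ range y) := by
    intro z hz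
    by_cases hzr : z ∈ range x
    · obtain ⟨i, rfl⟩ := hzr
      exact hxcl' i
    · exact M.subset_closure _ hB'E (Or.inl ⟨hz, hzr⟩)
  have hspan : M.Spanning ((B \ range x) ∪ range y) := by
    rw [Matroid.spanning_iff_closure_eq]
    refine subset_antisymm (M.closure_subset_ground _) ?_
    rw [← hB.closure_eq]
    exact M.closure_subset_closure_of_subset_closure hBcl
  obtain ⟨B'', hB'', hsub⟩ := hspan.exists_isBase_subset
  have hfin' : ((B \ range x) ∪ range y).Finite :=
    (hfin.subset sdiff_subset).union (finite_range y)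
  have hcard : ((B \ range x) ∪ range y).ncard ≤ B''.ncard := by
    have e1 : B''.ncard = B.ncard := by
      have := hB''.encard_eq_encard_of_isBase hB
      rw [Set.ncard, Set.ncard, this]
    have e2 : (range x).ncard = s + 1 := by
      rw [← Set.image_univ, Set.ncard_image_of_injective _ hxi, Set.ncard_univ]
      simp
    have e3 : (range y).ncard ≤ s + 1 := by
      rw [← Set.image_univ]
      refine (Set.ncard_image_le (Set.finite_univ)).trans ?_
      rw [Set.ncard_univ]
      simp
    have e4 : (B \ range x).ncard + (range x).ncard = B.ncard := by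
      apply Set.ncard_sdiff_add_ncard_of_subset
      · rintro _ ⟨i, rfl⟩
        exact hx i
      · exact hfin
    have e5 := Set.ncard_union_le (B \ range x) (range y)
    omega
  have := Set.eq_of_subset_of_ncard_le hsub hcard hfin'
  rwa [← this]

end Pool.Agent.WD
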