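import Mathlib

set_option autoImplicit false

namespace Pool.Agent.WD

/-- A finite nonempty digraph without sinks has a directed closed walk. -/
private theorem exists_closed_walk {X : Type*} [Finite X] [Nonempty X] (R : X → X → Prop)
    (h : ∀ x, ∃ y, R x y) :
    ∃ (s : ℕ) (g : Fin (s + 1) → X), ∀ i, R (g i) (g (i + 1)) := by
  choose nx hnx using h
  obtain ⟨x0⟩ := ‹Nonempty X›
  obtain ⟨m, n, hmn, he⟩ := Finite.exists_ne_map_eq_of_infinite (fun n : ℕ => nx^[n] x0)
  wlog hlt : m < n generalizing m n with H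
  · exact H n m (Ne.symm hmn) he.symm (lt_of_le_of_ne (not_lt.mp hlt) (Ne.symm hmn))
  have he' : nx^[m] x0 = nx^[n] x0 := he
  refine ⟨n - m - 1, fun k => nx^[(k : ℕ)] (nx^[m] x0), ?_⟩
  intro i
  rcases eq_or_ne i (Fin.last _) with hi | hi
  · subst hi
    have h1 : (Fin.last (n - m - 1) + 1 : Fin (n - m - 1 + 1)) = 0 := by simp
    rw [h1]
    have h2 : nx^[((0 : Fin (n - m - 1 + 1)) : ℕ)] (nx^[m] x0) =
        nx (nx^[((Fin.last (n - m - 1) : Fin (n - m - 1 + 1)) : ℕ)] (nx^[m] x0)) := by
      rw [← Function.iterate_succ_apply' nx, ← Function.iterate_add_apply nx (Nat.succ _) m,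
        Fin.val_last]
      have h3 : (n - m - 1).succ + m = n := by omega
      rw [h3]
      simpa using he'
    change R (nx^[((Fin.last (n - m - 1) : Fin (n - m - 1 + 1)) : ℕ)] (nx^[m] x0))
      (nx^[((0 : Fin (n - m - 1 + 1)) : ℕ)] (nx^[m] x0))
    rw [h2]
    exact hnx _
  · have h1 : ((i + 1 : Fin (n - m - 1 + 1)) : ℕ) = (i : ℕ) + 1 := by
      rw [Fin.val_add_one_of_lt]
      exact lt_of_le_of_ne (Fin.le_last i) hi
    simp only [h1]
    rw [Function.iterate_succ_apply']
    exact hnx _

/-- A finite nonempty digraph without sinks has a chordless directed cycle (a shortest closed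
walk). -/
theorem exists_chordless_cycle {X : Type*} [Finite X] [Nonempty X] (R : X → X → Prop)
    (h : ∀ x, ∃ y, R x y) :
    ∃ (s : ℕ) (f : Fin (s + 1) → X), Function.Injective f ∧ (∀ i, R (f i) (f (i + 1))) ∧
      ∀ i j, R (f i) (f j) → j = i + 1 := by
  classical
  have hex := exists_closed_walk R h
  set s := Nat.find hex with hs
  obtain ⟨g, hg⟩ := Nat.find_spec hex
  have hmin : ∀ d < s, ¬ ∃ g : Fin (d + 1) → X, ∀ i, R (g i) (g (i + 1)) :=
    fun d hd => Nat.find_min hex hd
  have c0 : Fin.ofNat (s + 1) 0 = 0 := rfl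
  have c1 : ∀ k : ℕ, Fin.ofNat (s + 1) (k + 1) = Fin.ofNat (s + 1) k + 1 := by
    intro k
    apply Fin.ext
    simp [Fin.ofNat, Fin.val_add, Nat.add_mod]
  have c2 : ∀ x : Fin (s + 1), Fin.ofNat (s + 1) x.val = x := by
    intro x
    apply Fin.ext
    simp [Fin.ofNat, Nat.mod_eq_of_lt x.isLt]
  have key : ∀ i j, R (g i) (g j) → j = i + 1 := by
    intro i j hij
    by_contra hne
    set d : ℕ := (i - j : Fin (s + 1)).val with hd
    have hjd : j + Fin.ofNat (s + 1) d = i := by
      rw [hd, c2]; abel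
    have hds : d < s := by
      have h1 : d < s + 1 := (i - j : Fin (s + 1)).isLt
      rcases Nat.lt_or_ge d s with h2 | h2
      · exact h2
      · exfalso
        have h3 : d = s := by omega
        apply hne
        have h4 : (i - j : Fin (s + 1)) = Fin.last s := by
          apply Fin.ext; rw [← hd, h3, Fin.val_last]
        have h5 : (i - j : Fin (s + 1)) + 1 = 0 := by rw [h4]; simp
        have h6 : i + 1 = j := by
          have : i + 1 - j = 0 := by rw [← h5]; abel
          exact sub_eq_zero.mp this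
        exact h6.symm
    refine hmin d hds ⟨fun k => g (j + Fin.ofNat (s + 1) (k : ℕ)), ?_⟩
    intro k
    rcases eq_or_ne k (Fin.last _) with hk | hk
    · subst hk
      have h1 : (Fin.last d + 1 : Fin (d + 1)) = 0 := by simp
      rw [h1]
      simp only [Fin.val_last, Fin.val_zero, c0, add_zero]
      rw [hjd]
      exact hij
    · have h1 : ((k + 1 : Fin (d + 1)) : ℕ) = (k : ℕ) + 1 := by
        rw [Fin.val_add_one_of_lt]
        exact lt_of_le_of_ne (Fin.le_last k) hk
      simp only [h1]
      rw [c1, ← add_assoc]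
      exact hg _
  refine ⟨s, g, ?_, hg, key⟩
  intro a b hab
  have h1 := hg (a - 1)
  rw [sub_add_cancel, hab] at h1
  have h2 := key _ _ h1
  rw [sub_add_cancel] at h2
  exact h2.symm

end Pool.Agent.WD
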