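import Mathlib

/-!
Definitions for the theorem on the degrees of generators of toric ideals of matroids
(problem MP_e6151a_ag).  See `BLUEPRINT.md` in this folder.
-/

set_option autoImplicit false

namespace Pool.Agent.WD

open Set

variable {α : Type*} {ι : Type*}

/-- `F` is a flat and `A l ∩ F` spans `F` for every `l ∈ J`. -/
def Tight (M : Matroid α) (A : ι → Set α) (J : Set ι) (F : Set α) : Prop :=
  M.IsFlat F ∧ ∀ l ∈ J, M.closure (A l ∩ F) = F

/-- A family of pairwise disjoint bases. -/
def IsFam (M : Matroid α) (A : ι → Set α) : Prop :=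
  (∀ l, M.IsBase (A l)) ∧ Pairwise (Function.onFun Disjoint A)

/-- The element `v` of some base `A l`, `l ∈ J`, can be replaced by `z`; both `z` and `v` lie
in `W`. -/
def Edge (M : Matroid α) (A : ι → Set α) (J : Set ι) (W : Set α) (z v : α) : Prop :=
  z ∈ W ∧ v ∈ W ∧ ∃ l ∈ J, v ∈ A l ∧ z ∉ A l ∧ M.IsBase (insert z (A l \ {v}))

/-- Existence of a walk with `n` edges. -/
def Walk (M : Matroid α) (A : ι → Set α) (J : Set ι) (W : Set α) : ℕ → α → α → Prop
  | 0, x, y => x = y
  | n + 1, x, y => ∃ v, Edge M A J W x v ∧ Walk M A J W n v y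

/-- `B` together with the family `A` is a partition of `S` into bases. -/
def IsPart (M : Matroid α) (S B : Set α) (A : ι → Set α) : Prop :=
  M.IsBase B ∧ IsFam M A ∧ (∀ l, Disjoint B (A l)) ∧ B ∪ (⋃ l, A l) = S

end Pool.Agent.WD
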