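import Pool.Agent.WD.TightOps

set_option autoImplicit false

namespace Pool.Agent.WD

open Set

variable {α : Type*} {ι : Type*} {M : Matroid α} {A : ι → Set α} {J : Set ι}

private theorem walk_snoc {W : Set α} (n : ℕ) : ∀ x z v, Walk M A J W n x z →
    Edge M A J W z v → Walk M A J W (n + 1) x v := by
  induction n with
  | zero =>
    intro x z v h1 h2
    obtain rfl : x = z := h1
    exact ⟨v, h2, rfl⟩
  | succ n ih =>
    intro x z v h1 h2
    obtain ⟨u, hu, hw⟩ := h1
    exact ⟨u, hu, ih u z v hw h2⟩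

private theorem walk_mem {W : Set α} (n : ℕ) : ∀ x z, x ∈ W → Walk M A J W n x z → z ∈ W := by
  induction n with
  | zero =>
    intro x z hx h1
    obtain rfl : x = z := h1
    exact hx
  | succ n ih =>
    intro x z _ h1
    obtain ⟨u, hu, hw⟩ := h1
    exact ih u z hu.2.1 hw

/-- every reachable element is spanned by the part of `A l` in `T ∪ R` -/
private theorem reach_mem (hA : ∀ l, M.IsBase (A l)) {T T' : Set α}
    (hT' : Tight M A J T') {x : α} (hx : x ∈ T' \ T) {l : ι} (hl : l ∈ J) {z : α} {n : ℕ}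
    (hz : Walk M A J (T' \ T) n x z) :
    z ∈ M.closure (A l ∩ (T ∪ {v | ∃ n, Walk M A J (T' \ T) n x v})) := by
  have hzW : z ∈ T' \ T := walk_mem n x z hx hz
  have hAE : A l ⊆ M.E := (hA l).subset_ground
  by_cases hzA : z ∈ A l
  · exact M.mem_closure_of_mem ⟨hzA, Or.inr ⟨n, hz⟩⟩ (inter_subset_left.trans hAE)
  have hzcl : z ∈ M.closure (A l ∩ T') := by
    rw [hT'.2 l hl]
    exact hzW.1
  have hzE : z ∈ M.E := M.mem_ground_of_mem_closure hzcl
  set Js : Set (Set α) := {K | K ⊆ A l ∧ z ∈ M.closure K} with hJs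
  have h1 : A l ∩ T' ∈ Js := ⟨inter_subset_left, hzcl⟩
  have h2 : z ∈ M.closure (⋂₀ Js) := by
    rw [(hA l).indep.closure_sInter_eq_biInter_closure_of_forall_subset ⟨_, h1⟩
      (fun K hK => hK.1)]
    exact mem_iInter₂.mpr fun K hK => hK.2
  refine M.closure_subset_closure ?_ h2
  intro v hv
  have hv1 := mem_sInter.mp hv _ h1
  refine ⟨hv1.1, ?_⟩
  by_cases hvT : v ∈ T
  · exact Or.inl hvT
  right
  refine ⟨n + 1, walk_snoc n x z v hz ⟨hzW, ⟨hv1.2, hvT⟩, l, hl, hv1.1, hzA, ?_⟩⟩
  apply (hA l).exchange_base_of_notMem_closure hv1.1 _ hzE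
  intro hmem
  have := mem_sInter.mp hv (A l \ {v}) ⟨sdiff_subset, hmem⟩
  exact this.2 rfl

private theorem reach_sub (hA : ∀ l, M.IsBase (A l)) {T T' : Set α} (hT : Tight M A J T)
    (hT' : Tight M A J T') {x : α} (hx : x ∈ T' \ T) {l : ι} (hl : l ∈ J) :
    M.closure (T ∪ {v | ∃ n, Walk M A J (T' \ T) n x v}) ⊆
      M.closure (A l ∩ (T ∪ {v | ∃ n, Walk M A J (T' \ T) n x v})) := by
  apply M.closure_subset_closure_of_subset_closure
  rintro z (hz | ⟨n, hz⟩)
  · have h1 : z ∈ M.closure (A l ∩ T) := by rw [hT.2 l hl]; exact hz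
    exact M.closure_subset_closure (inter_subset_inter_right _ subset_union_left) h1
  · exact reach_mem hA hT' hx hl hz

private theorem reach_ground {T T' : Set α} (hT : Tight M A J T)
    (hT' : Tight M A J T') {x : α} (hx : x ∈ T' \ T) :
    T ∪ {v | ∃ n, Walk M A J (T' \ T) n x v} ⊆ M.E := by
  rintro z (hz | ⟨n, hz⟩)
  · exact hT.1.subset_ground hz
  · exact hT'.1.subset_ground (walk_mem n x z hx hz).1

/-- The span of `T` and of the set reachable from `x` inside `T' \ T` is tight. -/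
theorem reach_tight (hA : ∀ l, M.IsBase (A l)) {T T' : Set α} (hT : Tight M A J T)
    (hT' : Tight M A J T') (hTT' : T ⊆ T') {x : α} (hx : x ∈ T' \ T) :
    Tight M A J (M.closure (T ∪ {v | ∃ n, Walk M A J (T' \ T) n x v})) := by
  refine ⟨M.isFlat_closure _, fun l hl => ?_⟩
  apply subset_antisymm
  · exact M.closure_subset_closure_of_subset_closure inter_subset_right
  · refine (reach_sub hA hT hT' hx hl).trans (M.closure_subset_closure ?_)
    exact inter_subset_inter_right _ (M.subset_closure _ (reach_ground hT hT' hx))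

/-- If every tight flat containing `T` and `x` contains `y`, then `y` is reachable from `x`. -/
theorem exists_walk (hA : ∀ l, M.IsBase (A l)) {T T' : Set α} (hT : Tight M A J T)
    (hT' : Tight M A J T') (hTT' : T ⊆ T') {x y : α} (hx : x ∈ T' \ T) {l₀ : ι} (hl₀ : l₀ ∈ J)
    (hy : y ∈ A l₀) (hyT : y ∉ T)
    (h : ∀ F, Tight M A J F → T ⊆ F → x ∈ F → y ∈ F) :
    ∃ n, Walk M A J (T' \ T) n x y := by
  have hsub := M.subset_closure _ (reach_ground hT hT' hx)
  have h1 := h _ (reach_tight hA hT hT' hTT' hx) (subset_union_left.trans hsub)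
    (hsub (Or.inr ⟨0, rfl⟩))
  have h2 := reach_sub hA hT hT' hx hl₀ h1
  have h3 : y ∈ A l₀ ∩ (T ∪ {v | ∃ n, Walk M A J (T' \ T) n x v}) := by
    rw [← (hA l₀).indep.closure_inter_eq_self_of_subset (J := A l₀ ∩ _) inter_subset_left]
    exact ⟨h2, hy⟩
  exact h3.2.resolve_left hyT

end Pool.Agent.WD
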