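import Pool.Agent.WD.TightOps

set_option autoImplicit false

namespace Pool.Agent.WD

open Set

variable {α : Type*} {ι : Type*} {M : Matroid α} {A : ι → Set α}

private theorem Tight.mono {J J' : Set ι} {F : Set α} (h : Tight M A J F) (hJ : J' ⊆ J) :
    Tight M A J' F := ⟨h.1, fun l hl => h.2 l (hJ hl)⟩

private theorem eRk_flat_insert {L L' : Set α} {e : α} (hL : M.IsFlat L) (hL' : M.IsFlat L')
    (hLL' : L ⊆ L') (he : e ∈ L') (heL : e ∉ L) : M.eRk L + 1 ≤ M.eRk L' := by
  have h1 : M.eRk (insert e L) = M.eRk L + 1 := by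
    apply Matroid.eRk_insert_eq_add_one
    refine ⟨hL'.subset_ground he, ?_⟩
    rw [hL.closure]; exact heL
  rw [← h1]
  exact M.eRk_mono (insert_subset he hLL')

/-- Few of the bases suffice to force `y` from `x`: take a maximal set `J ∋ l₀` with
`|J| + rk T ≤ rk L(J)`, where `L(J)` is the least `J`-tight flat containing `T` and `x`. -/
theorem exists_select [Finite ι] (hA : ∀ l, M.IsBase (A l)) {T T' : Set α}
    (hT : Tight M A univ T) (hT' : Tight M A univ T') (hTT' : T ⊆ T') {x y : α}
    (hx : x ∈ T' \ T) (l₀ : ι) (h : ∀ F, Tight M A univ F → T ⊆ F → x ∈ F → y ∈ F) :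
    ∃ J : Finset ι, l₀ ∈ J ∧ (∀ F, Tight M A (J : Set ι) F → T ⊆ F → x ∈ F → y ∈ F) ∧
      (J.card : ℕ∞) + M.eRk T ≤ M.eRk T' := by
  classical
  haveI := Fintype.ofFinite ι
  have hXE : insert x T ⊆ M.E :=
    insert_subset (hT'.1.subset_ground hx.1) hT.1.subset_ground
  -- the least tight flats
  choose L hLt hLX hLmin using fun J : Finset ι => exists_least hA (J : Set ι) hXE
  have hbase : (({l₀} : Finset ι).card : ℕ∞) + M.eRk T ≤ M.eRk (L {l₀}) := by
    have h1 : M.eRk T + 1 ≤ M.eRk (L {l₀}) :=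
      eRk_flat_insert hT.1 (hLt _).1 ((subset_insert x T).trans (hLX _))
        (hLX _ (mem_insert x T)) hx.2
    rw [Finset.card_singleton, Nat.cast_one, add_comm]
    exact h1
  -- choose J of largest cardinality
  let S : Finset (Finset ι) := Finset.univ.filter
    (fun J => l₀ ∈ J ∧ (J.card : ℕ∞) + M.eRk T ≤ M.eRk (L J))
  have hS : S.Nonempty := ⟨{l₀}, by
    simp only [S, Finset.mem_filter, Finset.mem_univ, true_and, Finset.mem_singleton]
    exact hbase⟩
  obtain ⟨J, hJS, hJmax⟩ := Finset.exists_max_image S Finset.card hS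
  have hJ : l₀ ∈ J ∧ (J.card : ℕ∞) + M.eRk T ≤ M.eRk (L J) := by
    simpa only [S, Finset.mem_filter, Finset.mem_univ, true_and] using hJS
  have hy : y ∈ L J := by
    by_contra hyL
    have hnt : ¬ Tight M A univ (L J) := fun ht =>
      hyL (h _ ht ((subset_insert x T).trans (hLX _)) (hLX _ (mem_insert x T)))
    have hex : ∃ l, M.closure (A l ∩ L J) ≠ L J := by
      by_contra hcon
      push Not at hcon
      exact hnt ⟨(hLt J).1, fun l _ => hcon l⟩
    obtain ⟨l, hl⟩ := hex
    have hlJ : l ∉ J := fun hlJ => hl ((hLt J).2 l (by exact_mod_cast hlJ))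
    have hsub : L J ⊆ L (insert l J) := by
      apply hLmin J _ _ (hLX _)
      exact (hLt (insert l J)).mono (by
        intro k hk
        exact_mod_cast Finset.mem_insert_of_mem (by exact_mod_cast hk))
    have hne : ¬ L (insert l J) ⊆ L J := by
      intro hle
      have heq : L (insert l J) = L J := subset_antisymm hle hsub
      apply hl
      have := (hLt (insert l J)).2 l (by exact_mod_cast Finset.mem_insert_self l J)
      rwa [heq] at this
    obtain ⟨e, he, heL⟩ := not_subset.1 hne
    have hr : M.eRk (L J) + 1 ≤ M.eRk (L (insert l J)) :=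
      eRk_flat_insert (hLt _).1 (hLt _).1 hsub he heL
    have hmem : insert l J ∈ S := by
      simp only [S, Finset.mem_filter, Finset.mem_univ, true_and]
      refine ⟨Finset.mem_insert_of_mem hJ.1, ?_⟩
      rw [Finset.card_insert_of_notMem hlJ, Nat.cast_add, Nat.cast_one]
      calc (J.card : ℕ∞) + 1 + M.eRk T = ((J.card : ℕ∞) + M.eRk T) + 1 := by
            rw [add_right_comm]
        _ ≤ M.eRk (L J) + 1 := by gcongr; exact hJ.2
        _ ≤ _ := hr
    have := hJmax _ hmem
    rw [Finset.card_insert_of_notMem hlJ] at this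
    omega
  refine ⟨J, hJ.1, ?_, hJ.2.trans (M.eRk_mono ?_)⟩
  · intro F hF hTF hxF
    exact hLmin J F hF (insert_subset hxF hTF) hy
  · exact hLmin J T' (hT'.mono (subset_univ _)) (insert_subset hx.1 hTT')

end Pool.Agent.WD
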