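import Pool.Agent.WD.Augment
import Pool.Agent.WD.Reach
import Pool.Agent.WD.Select

set_option autoImplicit false

namespace Pool.Agent.WD

open Set

variable {α : Type*} {ι : Type*} {M : Matroid α}

/-- Exchange of `y` for `x` inside `T' \ T`, changing few bases. -/
theorem local_exchange [Finite ι] {A : ι → Set α} (hA : IsFam M A) {T T' : Set α}
    (hT : Tight M A univ T) (hT' : Tight M A univ T') (hTT' : T ⊆ T') {x y : α}
    (hx : x ∈ T' \ T) (hxA : ∀ l, x ∉ A l) (hy : y ∈ ⋃ l, A l) (hyT : y ∉ T)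
    (h : ∀ F, Tight M A univ F → T ⊆ F → x ∈ F → y ∈ F) :
    ∃ (A' : ι → Set α) (J : Finset ι), IsFam M A' ∧
      (⋃ l, A' l) = insert x ((⋃ l, A l) \ {y}) ∧ (∀ l, l ∉ J → A' l = A l) ∧
      (∀ l, A' l \ (T' \ T) = A l \ (T' \ T)) ∧ (J.card : ℕ∞) + M.eRk T ≤ M.eRk T' := by
  obtain ⟨l₀, hl₀⟩ := mem_iUnion.mp hy
  obtain ⟨J, hJ, h1, h2⟩ := exists_select hA.1 hT hT' hTT' hx l₀ h
  have hTJ : Tight M A (J : Set ι) T := ⟨hT.1, fun l _ => hT.2 l (mem_univ l)⟩
  have hTJ' : Tight M A (J : Set ι) T' := ⟨hT'.1, fun l _ => hT'.2 l (mem_univ l)⟩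
  obtain ⟨n, hn⟩ := exists_walk hA.1 hTJ hTJ' hTT' hx (Finset.mem_coe.mpr hJ) hl₀ hyT h1
  have hxy : x ≠ y := by rintro rfl; exact hxA l₀ hl₀
  obtain ⟨A', h3, h4, h5, h6⟩ := augment n A x y hA hxA hxy hn
  exact ⟨A', J, h3, h4, fun l hl => h5 l (fun h => hl (Finset.mem_coe.mp h)), h6, h2⟩

/-- Simultaneous exchanges. -/
theorem multi_exchange [Finite ι] [M.RankFinite] (s : ℕ) :
    ∀ (A : ι → Set α) (T : Set α) (x y : Fin s → α), IsFam M A → Tight M A univ T →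
    (∀ i, x i ∈ M.E) → (∀ i l, x i ∉ A l) → (∀ i, y i ∈ ⋃ l, A l) → (∀ i, x i ∉ T) →
    (∀ i, y i ∉ T) →
    (∀ i F, Tight M A univ F → T ⊆ F → x i ∈ F → y i ∈ F) →
    (∀ i j, i ≠ j → ∃ F, Tight M A univ F ∧ T ⊆ F ∧ x i ∈ F ∧ y j ∉ F) →
    ∃ (A' : ι → Set α) (J : Finset ι), IsFam M A' ∧
      (⋃ l, A' l) = ((⋃ l, A l) \ range y) ∪ range x ∧ (∀ l, l ∉ J → A' l = A l) ∧
      (J.card : ℕ∞) + M.eRk T ≤ M.eRank := by
  classical
  induction s with
  | zero =>
    intro A T x y hA hT _ _ _ _ _ _ _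
    refine ⟨A, ∅, hA, ?_, fun _ _ => rfl, ?_⟩
    · rw [range_eq_empty y, range_eq_empty x, sdiff_empty, union_empty]
    · simpa using M.eRk_le_eRank T
  | succ s ih =>
    intro A T x y hA hT hxE hxA hyA hxT hyT h1 h2
    obtain ⟨T', hT', hTT'', hmin⟩ := exists_least (M := M) (A := A) hA.1 univ
      (X := insert (x 0) T) (insert_subset (hxE 0) hT.1.subset_ground)
    have hTT' : T ⊆ T' := (subset_insert _ _).trans hTT''
    have hx0T' : x 0 ∈ T' := hTT'' (mem_insert _ _)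
    have hxinj : ∀ i j, i ≠ j → x i ≠ x j := by
      intro i j hij h
      obtain ⟨F, hF, hTF, hxF, hyF⟩ := h2 i j hij
      exact hyF (h1 j F hF hTF (h ▸ hxF))
    have hyinj : ∀ i j, i ≠ j → y i ≠ y j := by
      intro i j hij h
      obtain ⟨F, hF, hTF, hxF, hyF⟩ := h2 i j hij
      exact hyF (h ▸ h1 i F hF hTF hxF)
    have hle : ∀ i : Fin s, ∃ F, Tight M A univ F ∧ T ⊆ F ∧ T' ⊆ F ∧ y i.succ ∉ F := by
      intro i
      obtain ⟨F, hF, hTF, hxF, hyF⟩ := h2 0 i.succ (Fin.succ_ne_zero i).symm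
      exact ⟨F, hF, hTF, hmin F hF (insert_subset hxF hTF), hyF⟩
    have hxT' : ∀ i : Fin s, x i.succ ∉ T' := by
      intro i hi
      obtain ⟨F, hF, hTF, hT'F, hyF⟩ := hle i
      exact hyF (h1 _ F hF hTF (hT'F hi))
    have hyT' : ∀ i : Fin s, y i.succ ∉ T' := by
      intro i hi
      obtain ⟨F, hF, hTF, hT'F, hyF⟩ := hle i
      exact hyF (hT'F hi)
    obtain ⟨A1, J1, hA1, hU1, hJ1, hW1, hc1⟩ := local_exchange hA hT hT' hTT'
      (x := x 0) (y := y 0) ⟨hx0T', hxT 0⟩ (hxA 0) (hyA 0) (hyT 0) (h1 0)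
    have hch : ∀ l, A1 l \ T' = A l \ T' := by
      intro l
      have h3 : ∀ X : Set α, (X \ (T' \ T)) \ T' = X \ T' := by
        intro X
        ext e
        simp only [mem_sdiff]
        tauto
      rw [← h3 (A1 l), hW1 l, h3 (A l)]
    have htight : ∀ F, T' ⊆ F → (Tight M A univ F ↔ Tight M A1 univ F) := fun F hF =>
      tight_of_change hA.1 hA1.1 hT' hch hF
    obtain ⟨A2, J2, hA2, hU2, hJ2, hc2⟩ := ih A1 T' (fun i => x i.succ) (fun i => y i.succ) hA1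
      ((htight T' subset_rfl).1 hT') (fun i => hxE _)
      (by
        intro i l hl
        have h3 : x i.succ ∈ ⋃ l, A1 l := mem_iUnion.2 ⟨l, hl⟩
        rw [hU1] at h3
        rcases h3 with h3 | h3
        · exact hxinj _ _ (Fin.succ_ne_zero i) h3
        · obtain ⟨l', hl'⟩ := mem_iUnion.1 h3.1
          exact hxA _ _ hl')
      (by
        intro i
        rw [hU1]
        exact Or.inr ⟨hyA _, fun h => hyinj _ _ (Fin.succ_ne_zero i) h⟩)
      hxT' hyT'
      (by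
        intro i F hF hT'F hxF
        exact h1 _ F ((htight F hT'F).2 hF) (hTT'.trans hT'F) hxF)
      (by
        intro i j hij
        obtain ⟨F, hF, hTF, hxF, hyF⟩ := h2 i.succ j.succ
          (fun h => hij (Fin.succ_injective _ h))
        have hsub : T' ∪ F ⊆ M.closure (T' ∪ F) :=
          M.subset_closure _ (union_subset hT'.1.subset_ground hF.1.subset_ground)
        have hT'G : T' ⊆ M.closure (T' ∪ F) := subset_union_left.trans hsub
        refine ⟨M.closure (T' ∪ F), (htight _ hT'G).1 (tight_join hT' hF), hT'G,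
          hsub (Or.inr hxF), fun hyG => ?_⟩
        obtain ⟨l, hl⟩ := mem_iUnion.1 (hyA j.succ)
        rcases join_inter hA.1 hT' hF (mem_univ l) hl hyG with h | h
        · exact hyT' j h
        · exact hyF h)
    refine ⟨A2, J1 ∪ J2, hA2, ?_, ?_, ?_⟩
    · rw [hU2, hU1]
      ext e
      simp only [mem_union, mem_sdiff, mem_insert_iff, mem_singleton_iff, mem_range]
      constructor
      · rintro (⟨h3 | ⟨h3, h4⟩, h5⟩ | ⟨i, h3⟩)
        · exact Or.inr ⟨0, h3.symm⟩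
        · refine Or.inl ⟨h3, ?_⟩
          rintro ⟨i, hi⟩
          refine Fin.cases (fun hi => h4 hi.symm) (fun i hi => h5 ⟨i, hi⟩) i hi
        · exact Or.inr ⟨_, h3⟩
      · rintro (⟨h3, h4⟩ | ⟨i, h3⟩)
        · exact Or.inl ⟨Or.inr ⟨h3, fun h => h4 ⟨0, h.symm⟩⟩, fun ⟨i, hi⟩ => h4 ⟨_, hi⟩⟩
        · revert h3
          refine Fin.cases (fun hi => ?_) (fun i hi => Or.inr ⟨i, hi⟩) i
          refine Or.inl ⟨Or.inl hi.symm, ?_⟩
          rintro ⟨j, hj⟩
          obtain ⟨l, hl⟩ := mem_iUnion.1 (hyA j.succ)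
          rw [hj, ← hi] at hl
          exact hxA _ _ hl
    · intro l hl
      rw [Finset.mem_union, not_or] at hl
      rw [hJ2 l hl.2, hJ1 l hl.1]
    · calc ((J1 ∪ J2).card : ℕ∞) + M.eRk T ≤ ((J1.card + J2.card : ℕ) : ℕ∞) + M.eRk T := by
            gcongr
            exact Finset.card_union_le _ _
        _ = (J2.card : ℕ∞) + ((J1.card : ℕ∞) + M.eRk T) := by
            push_cast
            ring
        _ ≤ (J2.card : ℕ∞) + M.eRk T' := by gcongr
        _ ≤ M.eRank := hc2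

end Pool.Agent.WD
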