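import Pool.Agent.WD.Multi
import Pool.Agent.WD.Cycle
import Pool.Agent.WD.Count

set_option autoImplicit false

namespace Pool.Agent.WD

open Set

variable {α : Type*} {ι : Type*} {M : Matroid α}

private theorem rev_exchange_aux {B C : Set α} (hB : M.IsBase B) (hC : M.IsBase C) {y : α}
    (hyC : y ∈ C) (hyB : y ∉ B) : ∃ x' ∈ B \ C, M.IsBase (insert y (B \ {x'})) := by
  have hyE : y ∈ M.E := hC.subset_ground hyC
  have hcirc := hB.fundCircuit_isCircuit hyE hyB
  obtain ⟨x', hx', hx'C⟩ : ∃ x' ∈ M.fundCircuit y B, x' ∉ C := by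
    by_contra hcon
    push Not at hcon
    exact hcirc.not_indep (hC.indep.subset hcon)
  have hne : y ≠ x' := by
    rintro rfl
    exact hx'C hyC
  have hx'B : x' ∈ B := by
    rcases M.fundCircuit_subset_insert y B hx' with h | h
    · exact absurd h.symm hne
    · exact h
  have hind := (hB.indep.mem_fundCircuit_iff (by rwa [hB.closure_eq]) hyB).mp hx'
  have h3 := hB.exchange_isBase_of_indep' hx'B hyB hind
  rw [← insert_sdiff_singleton_comm hne] at h3
  exact ⟨x', ⟨hx'B, hx'C⟩, h3⟩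

/-- Every element of `B \ C` forces some element of `C \ B`, which can replace some element of
`B \ C` in `B`. -/
theorem exists_arc [Finite ι] [M.RankFinite] {S B C : Set α} {A D : ι → Set α}
    (hP : IsPart M S B A) (hQ : IsPart M S C D) (x : ↥(B \ C)) :
    ∃ x' : ↥(B \ C), ∃ y ∈ C \ B, (∀ F, Tight M A univ F → (x : α) ∈ F → y ∈ F) ∧
      M.IsBase (insert y (B \ {(x' : α)})) := by
  obtain ⟨x, hxB, hxC⟩ := x
  have hxE : ({x} : Set α) ⊆ M.E := singleton_subset_iff.mpr (hP.1.subset_ground hxB)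
  obtain ⟨T, hT, hxT, hleast⟩ := exists_least hP.2.1.1 (univ : Set ι) hxE
  obtain ⟨y, hyT, hyC, hyB⟩ := count_exchange hP hQ hT (singleton_subset_iff.mp hxT) hxB hxC
  obtain ⟨x', hx', hbase⟩ := rev_exchange_aux hP.1 hQ.1 hyC hyB
  exact ⟨⟨x', hx'⟩, y, ⟨hyC, hyB⟩, fun F hF hxF =>
    hleast F hF (singleton_subset_iff.mpr hxF) hyT, hbase⟩

/-- The main step: a partition `(B, A)` can be changed to a partition `(B', A')` which shares a
base with it and for which `B'` is closer to `C`. -/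
theorem step [Finite ι] [M.RankFinite] (hr : M.eRank < ENat.card ι) {S B C : Set α}
    {A D : ι → Set α} (hP : IsPart M S B A) (hQ : IsPart M S C D) (hBC : B ≠ C) :
    ∃ (B' : Set α) (A' : ι → Set α) (l : ι), IsPart M S B' A' ∧ A' l = A l ∧
      (B' \ C).ncard < (B \ C).ncard := by
  have hBfin : B.Finite := hP.1.finite
  have hfinBC : (B \ C).Finite := hBfin.subset sdiff_subset
  have : Finite ↥(B \ C) := hfinBC.to_subtype
  have hne : (B \ C).Nonempty := by
    rw [sdiff_nonempty]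
    intro hsub
    exact hBC (hP.1.eq_of_subset_isBase hQ.1 hsub)
  have : Nonempty ↥(B \ C) := hne.to_subtype
  obtain ⟨s, f, hfinj, hR, hchord⟩ := exists_chordless_cycle
    (X := ↥(B \ C)) (fun x x' => ∃ y ∈ C \ B,
      (∀ F, Tight M A univ F → (x : α) ∈ F → y ∈ F) ∧
      M.IsBase (insert y (B \ {(x' : α)}))) (fun x => exists_arc hP hQ x)
  choose y hyCB hforce hybase using hR
  set x : Fin (s + 1) → α := fun i => (f i : α) with hxdef
  have hxB : ∀ i, x i ∈ B := fun i => (f i).2.1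
  have hxC : ∀ i, x i ∉ C := fun i => (f i).2.2
  have hxinj : Function.Injective x := fun i j hij => hfinj (Subtype.ext hij)
  have hyC : ∀ i, y i ∈ C := fun i => (hyCB i).1
  have hyB : ∀ i, y i ∉ B := fun i => (hyCB i).2
  have hbase' : M.IsBase ((B \ range x) ∪ range y) := by
    refine base_of_chordless hP.1 hBfin x y hxinj hxB hyB hybase ?_
    intro i j hij
    exact hchord i j ⟨y i, hyCB i, hforce i, hij⟩
  have hxA : ∀ i l, x i ∉ A l := fun i l h => (disjoint_left.mp (hP.2.2.1 l)) (hxB i) h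
  have hyA : ∀ i, y i ∈ ⋃ l, A l := by
    intro i
    have hS : y i ∈ S := by
      rw [← hQ.2.2.2]
      exact Or.inl (hyC i)
    rw [← hP.2.2.2] at hS
    exact hS.resolve_left (hyB i)
  have hxE : ∀ i, x i ∈ M.E := fun i => hP.1.subset_ground (hxB i)
  have hnotloop : ∀ {Z : Set α}, M.IsBase Z → ∀ {z : α}, z ∈ Z → z ∉ M.closure ∅ := by
    intro Z hZ z hz hzl
    have h1 := hZ.indep.notMem_closure_sdiff_of_mem hz
    exact h1 (M.closure_subset_closure (empty_subset _) hzl)
  have hTloops : Tight M A univ (M.closure ∅) := tight_loops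
  have hloopsF : ∀ F, Tight M A univ F → M.closure ∅ ⊆ F := by
    intro F hF
    have := hF.1.closure
    calc M.closure ∅ ⊆ M.closure F := M.closure_subset_closure (empty_subset _)
      _ = F := this
  obtain ⟨A', J, hA', hU, hsame, hcard⟩ := multi_exchange (M := M) (s + 1) A (M.closure ∅) x y
    hP.2.1 hTloops hxE hxA hyA (fun i => hnotloop hP.1 (hxB i)) (fun i => hnotloop hQ.1 (hyC i))
    (fun i F hF _ hxF => hforce i F hF hxF)
    (by
      intro i j hij
      by_contra hcon
      push Not at hcon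
      apply hij
      have h3 := hchord i (j + 1) ⟨y j, hyCB j, fun F hF hxF => hcon F hF (hloopsF F hF) hxF,
        hybase j⟩
      exact (add_right_cancel h3).symm)
  have hJ : ∃ l, l ∉ J := by
    by_contra hcon
    push Not at hcon
    have h4 : ENat.card ι ≤ (J.card : ℕ∞) := by
      have : Fintype ι := Fintype.ofFinite ι
      have h5 : J = Finset.univ := Finset.eq_univ_iff_forall.mpr hcon
      rw [h5, ENat.card_eq_coe_fintype_card, Finset.card_univ]
    have h6 : (J.card : ℕ∞) ≤ M.eRank := le_trans (by simp) hcard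
    exact absurd (lt_of_lt_of_le hr (h4.trans h6)) (lt_irrefl _)
  obtain ⟨l, hl⟩ := hJ
  refine ⟨(B \ range x) ∪ range y, A', l, ⟨hbase', hA', ?_, ?_⟩, hsame l hl, ?_⟩
  · intro l'
    rw [disjoint_left]
    intro z hz hz'
    have hz'' : z ∈ ⋃ l, A' l := mem_iUnion.mpr ⟨l', hz'⟩
    rw [hU] at hz''
    rcases hz with ⟨hzB, hzx⟩ | ⟨i, rfl⟩
    · rcases hz'' with ⟨hzA, _⟩ | hzx'
      · obtain ⟨l'', hl''⟩ := mem_iUnion.mp hzA
        exact (disjoint_left.mp (hP.2.2.1 l'')) hzB hl''
      · exact hzx hzx'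
    · rcases hz'' with ⟨_, hzy⟩ | ⟨j, hj⟩
      · exact hzy (mem_range_self i)
      · exact hyB i (hj ▸ hxB j)
  · rw [hU, ← hP.2.2.2]
    ext z
    simp only [mem_union, mem_sdiff]
    constructor
    · rintro ((⟨h, _⟩ | ⟨i, rfl⟩) | (⟨h, _⟩ | ⟨i, rfl⟩))
      · exact Or.inl h
      · exact Or.inr (hyA i)
      · exact Or.inr h
      · exact Or.inl (hxB i)
    · rintro (h | h)
      · by_cases hz : z ∈ range x
        · exact Or.inr (Or.inr hz)
        · exact Or.inl (Or.inl ⟨h, hz⟩)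
      · by_cases hz : z ∈ range y
        · exact Or.inl (Or.inr hz)
        · exact Or.inr (Or.inl ⟨h, hz⟩)
  · apply ncard_lt_ncard _ hfinBC
    refine ⟨?_, ?_⟩
    · rintro z ⟨⟨hzB, _⟩ | ⟨i, rfl⟩, hzC⟩
      · exact ⟨hzB, hzC⟩
      · exact absurd (hyC i) hzC
    · intro hsub
      have h7 := hsub (⟨hxB 0, hxC 0⟩ : x 0 ∈ B \ C)
      rcases h7.1 with ⟨_, h8⟩ | ⟨i, hi⟩
      · exact h8 (mem_range_self 0)
      · exact hyB i (hi ▸ hxB 0)

end Pool.Agent.WD
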